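import Mathlib
import Pool.Agent.H546.APStm

set_option autoImplicit false

/-!
# The identity J for Apery polynomials modulo the square of a prime
-/

namespace Pool.Agent.H127.AP7

open Polynomial Finset
open Pool.Agent.H546 (lg)
open Pool.Agent.H546.AP
open Pool.Agent.Q267.CDE (R)

section gen

variable {A : Type*} [CommRing A]

/-- the differential operator -/
noncomputable def LL (y : A[X]) : A[X] :=
  16 * X * (1 - X) * derivative (derivative y) + 16 * (1 - 2 * X) * derivative y - 3 * y

lemma coeff_X_mul_der (f : A[X]) (i : ℕ) : (X * derivative f).coeff i = i * f.coeff i := by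
  rcases i with _ | i
  · simp
  · rw [coeff_X_mul, coeff_derivative]
    push_cast
    ring

lemma coeff_X_mul_der2 (f : A[X]) (i : ℕ) :
    (X * derivative (derivative f)).coeff i = (i + 1) * i * f.coeff (i + 1) := by
  rw [coeff_X_mul_der, coeff_derivative]
  ring

lemma coeff_XX_mul_der2 (f : A[X]) (i : ℕ) :
    (X * (X * derivative (derivative f))).coeff i = i * (i - 1) * f.coeff i := by
  rcases i with _ | i
  · simp
  · rw [coeff_X_mul, coeff_X_mul_der2]
    push_cast
    ring

lemma LL_coeff (f : A[X]) (hf : LL f = 0) (i : ℕ) :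
    16 * ((i : A) + 1) ^ 2 * f.coeff (i + 1) = (4 * i + 1) * (4 * i + 3) * f.coeff i := by
  have e : LL f = C 16 * (X * derivative (derivative f)) - C 16 * (X * (X * derivative (derivative f)))
      + C 16 * derivative f - C 32 * (X * derivative f) - C 3 * f := by
    unfold LL
    have h16 : (C 16 : A[X]) = 16 := rfl
    have h32 : (C 32 : A[X]) = 32 := rfl
    have h3 : (C 3 : A[X]) = 3 := rfl
    rw [h16, h32, h3]
    ring
  rw [e] at hf
  have h := congrArg (fun g => coeff g i) hf
  simp only [coeff_sub, coeff_add, coeff_C_mul, coeff_X_mul_der,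
    coeff_XX_mul_der2, coeff_derivative, coeff_zero] at h
  linear_combination h

lemma LL_comp (f : A[X]) : LL (f.comp (1 - X)) = (LL f).comp (1 - X) := by
  have hd : ∀ g : A[X], derivative (g.comp (1 - X)) = -((derivative g).comp (1 - X)) := by
    intro g
    rw [derivative_comp]
    simp
  unfold LL
  rw [hd, derivative_neg, hd]
  simp only [sub_comp, add_comp, mul_comp, X_comp, one_comp, ofNat_comp]
  ring

/-- the computation -/
lemma LL_W (p T P Q β γ : A[X]) (hpd : derivative p = 0) (hT : LL T = 0)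
    (hβ : LL β = 8 * p * (1 - X) * derivative β - 4 * p * β)
    (hγ : LL γ = -8 * p * X * derivative γ - 4 * p * γ)
    (hpβ : p * β = p * T) (hpγ : p * γ = p * T)
    (hP : X * derivative P = p * P) (hpP : p * derivative P = 0)
    (hQ : (1 - X) * derivative Q = -(p * Q)) (hpQ : p * derivative Q = 0) :
    LL (T * (4 - P - Q) + 4 * (P * (β - T) + Q * (γ - T))) = 0 := by
  have e : T * (4 - P - Q) + 4 * (P * (β - T) + Q * (γ - T)) =
      T * (4 - 5 * P - 5 * Q) + 4 * (P * β) + 4 * (Q * γ) := by ring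
  rw [e]
  have hpβ' : p * derivative β = p * derivative T := by
    have := congrArg derivative hpβ
    simpa [derivative_mul, hpd] using this
  have hpγ' : p * derivative γ = p * derivative T := by
    have := congrArg derivative hpγ
    simpa [derivative_mul, hpd] using this
  have hP2 : X * derivative (derivative P) = -derivative P := by
    have := congrArg derivative hP
    simp only [derivative_mul, derivative_X, hpd] at this
    linear_combination this + hpP
  have hQ2 : (1 - X) * derivative (derivative Q) = derivative Q := by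
    have := congrArg derivative hQ
    simp only [derivative_mul, derivative_X, hpd, derivative_sub, derivative_one, derivative_neg]
      at this
    linear_combination this - hpQ
  have d4 : derivative (4 : A[X]) = 0 := derivative_ofNat 4
  have d5 : derivative (5 : A[X]) = 0 := derivative_ofNat 5
  unfold LL at hT hβ hγ ⊢
  simp only [derivative_add, derivative_mul, derivative_sub, derivative_neg, d4, d5, zero_mul,
    zero_add, zero_sub]
  linear_combination (4 - 5 * P - 5 * Q) * hT + 4 * P * hβ + 4 * Q * hγ +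
    (-80 * (1 - X) * T + 64 * (1 - X) * β) * hP2 +
    (-160 * (1 - X) * derivative T + 80 * T + 128 * (1 - X) * derivative β - 64 * β) * hP +
    (160 * (1 - X) * P) * hpβ' - 80 * P * hpβ +
    (-80 * X * T + 64 * X * γ) * hQ2 +
    (-160 * X * derivative T - 80 * T + 128 * X * derivative γ + 64 * γ) * hQ -
    160 * X * Q * hpγ' - 80 * Q * hpγ

end gen

section modp

variable (p : ℕ) [hp : Fact p.Prime]

lemma pp : ((p : (R p)[X])) ^ 2 = 0 := by
  have h : ((p : R p)) ^ 2 = 0 := by
    have := ZMod.natCast_self (p ^ 2)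
    push_cast at this
    exact this
  have h2 : (p : (R p)[X]) = C (p : R p) := by simp
  rw [h2, ← C_pow, h, C_0]

lemma pp0 : ((p : R p)) ^ 2 = 0 := by
  have := ZMod.natCast_self (p ^ 2)
  push_cast at this
  exact this

lemma unit_of {i : ℕ} (h0 : 0 < i) (h : i < p) : IsUnit ((i : ℕ) : R p) := by
  rw [ZMod.isUnit_iff_coprime]
  exact Nat.Coprime.pow_right 2
    ((Nat.Prime.coprime_iff_not_dvd hp.out).2 (Nat.not_dvd_of_pos_of_lt h0 h)).symm

lemma unit_two (h3 : 3 < p) : IsUnit (2 : R p) := by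
  have := unit_of p (i := 2) (by norm_num) (by omega)
  exact_mod_cast this

/-- the polynomials `P` and `Q` -/
lemma P_facts : X * derivative ((4 * X : (R p)[X]) ^ p) = (p : (R p)[X]) * (4 * X) ^ p ∧
    (p : (R p)[X]) * derivative ((4 * X : (R p)[X]) ^ p) = 0 := by
  have h1 : derivative ((4 * X : (R p)[X]) ^ p) = (p : (R p)[X]) * (4 * X) ^ (p - 1) * 4 := by
    rw [derivative_pow]
    simp [derivative_mul]
  constructor
  · rw [h1]
    obtain ⟨k, hk⟩ : ∃ k, p = k + 1 := ⟨p - 1, by have := hp.out.pos; omega⟩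
    have e : (4 * X : (R p)[X]) ^ p = (4 * X) ^ (p - 1) * (4 * X) := by
      rw [← pow_succ]
      congr 1
      have := hp.out.pos
      omega
    rw [e]
    ring
  · rw [h1]
    have := pp p
    linear_combination (4 * X) ^ (p - 1) * 4 * this

lemma Q_facts : (1 - X) * derivative ((4 * (1 - X) : (R p)[X]) ^ p) =
      -((p : (R p)[X]) * (4 * (1 - X)) ^ p) ∧
    (p : (R p)[X]) * derivative ((4 * (1 - X) : (R p)[X]) ^ p) = 0 := by
  have h1 : derivative ((4 * (1 - X) : (R p)[X]) ^ p) =
      (p : (R p)[X]) * (4 * (1 - X)) ^ (p - 1) * (-4) := by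
    rw [derivative_pow]
    simp [derivative_mul]
  constructor
  · rw [h1]
    have e : (4 * (1 - X) : (R p)[X]) ^ p = (4 * (1 - X)) ^ (p - 1) * (4 * (1 - X)) := by
      rw [← pow_succ]
      congr 1
      have := hp.out.pos
      omega
    rw [e]
    ring
  · rw [h1]
    have := pp p
    linear_combination (4 * (1 - X)) ^ (p - 1) * (-4) * this

/-- vanishing of the low coefficients -/
lemma low (h3 : 3 < p) (W : (R p)[X]) (hW : LL W = 0) (h0 : W.coeff 0 = 0) :
    ∀ i, i < p → W.coeff i = 0 := by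
  intro i
  induction i with
  | zero => exact fun _ => h0
  | succ i ih =>
    intro hi
    have h := LL_coeff W hW i
    rw [ih (by omega), mul_zero] at h
    have hu : IsUnit (16 * ((i : R p) + 1) ^ 2) := by
      have h2 := unit_two p h3
      have h16 : IsUnit (16 : R p) := by
        have : (16 : R p) = 2 ^ 4 := by norm_num
        rw [this]
        exact h2.pow 4
      have hi1 : IsUnit ((i : R p) + 1) := by
        have := unit_of p (i := i + 1) (by omega) hi
        push_cast at this
        exact this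
      exact h16.mul (hi1.pow 2)
    exact (hu.mul_right_eq_zero).1 h

lemma lg_deg (n : ℕ) : (lg n (X : (R p)[X])).natDegree ≤ n := by
  unfold lg
  apply natDegree_sum_le_of_forall_le
  intro k hk
  rw [mem_range] at hk
  refine natDegree_mul_le_of_le (m := 0) (n := k) ?_ (natDegree_X_pow_le k) |>.trans (by omega)
  exact (natDegree_intCast _).le

lemma bq_deg (e : ℕ) : (bq (R p) e).natDegree ≤ e := by
  unfold bq
  apply natDegree_sum_le_of_forall_le
  intro k hk
  rw [mem_range] at hk
  refine natDegree_mul_le_of_le (m := 0) (n := k) (natDegree_C _).le ?_ |>.trans (by omega)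
  have : (1 - X : (R p)[X]).natDegree ≤ 1 := by
    refine (natDegree_sub_le _ _).trans ?_
    simp [natDegree_X_le]
  exact natDegree_pow_le_of_le k this |>.trans (by omega)

lemma tq_deg : (tq p).natDegree ≤ 3 * p / 4 := by
  unfold tq
  apply natDegree_add_le_of_degree_le
  · refine natDegree_mul_le_of_le (m := 0) (n := p / 4) ?_ (lg_deg p _) |>.trans (by omega)
    exact (natDegree_ofNat 3).le
  · exact lg_deg p _

lemma lg_at_zero (n : ℕ) : (lg n (X : (R p)[X])).coeff 0 = 1 := by
  unfold lg
  rw [finsetSum_coeff, sum_eq_single 0]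
  · simp [Pool.Agent.Q267.Seven.dl]
  · intro k _ hk
    rw [← C_eq_intCast]
    simp [coeff_C_mul, coeff_X_pow, hk.symm]
  · simp

lemma tq_at_zero : (tq p).coeff 0 = 4 := by
  unfold tq
  have h3 : (3 : (R p)[X]) = C 3 := rfl
  rw [coeff_add, h3, coeff_C_mul, lg_at_zero, lg_at_zero]
  norm_num

lemma bq_at_one (e : ℕ) : (bq (R p) e).eval 1 = 2 ^ e := by
  unfold bq
  rw [eval_finsetSum, sum_eq_single 0]
  · simp
  · intro k _ hk
    simp [hk]
  · simp

lemma sq_zero (x : R p) (h : (p : R p) * x = 0) : x ^ 2 = 0 := by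
  have : NeZero (p ^ 2) := ⟨pow_ne_zero 2 hp.out.ne_zero⟩
  have h1 : ((p * x.val : ℕ) : R p) = 0 := by
    push_cast
    rw [ZMod.natCast_zmod_val]
    exact h
  rw [ZMod.natCast_eq_zero_iff] at h1
  obtain ⟨k, hk'⟩ := h1
  have hk : x.val = p * k := by
    apply Nat.eq_of_mul_eq_mul_left hp.out.pos
    rw [hk']
    ring
  have h3 : x = (p : R p) * k := by
    rw [← ZMod.natCast_zmod_val x, hk]
    push_cast
    rfl
  rw [h3]
  linear_combination (k : R p) ^ 2 * pp0 p

end modp

lemma LL_C {A : Type*} [CommRing A] (c : A) (f : A[X]) : LL (C c * f) = C c * LL f := by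
  unfold LL
  simp only [derivative_C_mul]
  ring

lemma der_comp {A : Type*} [CommRing A] (g : A[X]) :
    derivative (g.comp (1 - X)) = -((derivative g).comp (1 - X)) := by
  rw [derivative_comp]
  simp

lemma four_pow {A : Type*} [CommRing A] (e : ℕ) : (4 : A) ^ (2 * e + 1) = 4 * (2 ^ e) ^ 4 := by
  have : (4 : A) = 2 ^ 2 := by norm_num
  rw [pow_succ, this, ← pow_mul, ← pow_mul, mul_comm]
  congr 2
  ring

theorem h_S_J : S_J := by
  intro hbode htode hbT p hp h3
  have hp2 : p ≠ 2 := by omega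
  obtain ⟨hT, hsym⟩ := htode p hp2
  have hodd : p = 2 * ((p - 1) / 2) + 1 := by
    have := hp.out.eq_two_or_odd
    omega
  have hb := hbode (R p) p ((p - 1) / 2) hodd
  have hAP6 := hbT p hp2
  generalize he : (p - 1) / 2 = e at hodd hb hAP6 ⊢
  have helt : e ≤ p - 1 := by omega
  have hs0 : ∀ n : ℕ, ((-1 : R p) ^ n) * ((-1) ^ n) = 1 := by
    intro n
    rw [← mul_pow]
    simp
  have hC : ∀ n : ℕ, ((-1 : (R p)[X])) ^ n = C ((-1) ^ n) := by
    intro n
    simp
  rw [hC, hC]
  rw [hC] at hsym hAP6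
  generalize hsd : ((-1 : R p)) ^ e = s at hAP6 ⊢
  generalize hcd : ((-1 : R p)) ^ (p / 4) = c at hsym ⊢
  have hss : s * s = 1 := by rw [← hsd]; exact hs0 e
  have hcc : c * c = 1 := by rw [← hcd]; exact hs0 _
  have hSS : (C s : (R p)[X]) * C s = 1 := by rw [← C_mul, hss, C_1]
  have hCC : (C c : (R p)[X]) * C c = 1 := by rw [← C_mul, hcc, C_1]
  -- names
  obtain ⟨T, hTd⟩ : ∃ T, T = tq p := ⟨_, rfl⟩
  obtain ⟨B, hBd⟩ : ∃ B, B = bq (R p) e := ⟨_, rfl⟩
  have hB1 : B.eval 1 = 2 ^ e := by rw [hBd]; exact bq_at_one p e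
  have hT0 : T.eval 0 = 4 := by
    rw [hTd, ← coeff_zero_eq_eval_zero]
    exact tq_at_zero p
  have hTdeg : T.natDegree ≤ p - 1 := by
    rw [hTd]
    exact (tq_deg p).trans (by omega)
  have hBdeg : B.natDegree ≤ p - 1 := by
    rw [hBd]
    exact (bq_deg p e).trans helt
  rw [← hTd] at hT hsym hAP6 ⊢
  rw [← hBd] at hb hAP6 ⊢
  have hq2 : (p : (R p)[X]) ^ 2 = 0 := pp p
  have hpd : derivative (p : (R p)[X]) = 0 := derivative_natCast
  have hLT : LL T = 0 := hT
  have hLB : LL B = 8 * (p : (R p)[X]) * (1 - X) * derivative B - 4 * (p : (R p)[X]) * B := by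
    unfold LL
    linear_combination hb + B * hq2
  have hLB1 : LL (B.comp (1 - X)) = 8 * (p : (R p)[X]) * X * (derivative B).comp (1 - X) -
      4 * (p : (R p)[X]) * B.comp (1 - X) := by
    rw [LL_comp, hLB]
    simp only [sub_comp, mul_comp, X_comp, one_comp, ofNat_comp, natCast_comp]
    ring
  obtain ⟨β, hβd⟩ : ∃ β, β = 4 * (C s * B) := ⟨_, rfl⟩
  obtain ⟨γ, hγd⟩ : ∃ γ, γ = 4 * (C c * (C s * B.comp (1 - X))) := ⟨_, rfl⟩
  have h4C : (4 : (R p)[X]) = C 4 := rfl
  have hβC : β = C (4 * s) * B := by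
    rw [hβd, h4C, C_mul]
    ring
  have hγC : γ = C (4 * (c * s)) * B.comp (1 - X) := by
    rw [hγd, h4C, C_mul, C_mul]
    ring
  have hβ : LL β = 8 * (p : (R p)[X]) * (1 - X) * derivative β - 4 * (p : (R p)[X]) * β := by
    rw [hβC, LL_C, hLB, derivative_C_mul]
    ring
  have hγ : LL γ = -8 * (p : (R p)[X]) * X * derivative γ - 4 * (p : (R p)[X]) * γ := by
    rw [hγC, LL_C, hLB1, derivative_C_mul, der_comp]
    ring
  have hpβ : (p : (R p)[X]) * β = p * T := by
    rw [hβd]
    linear_combination C s * hAP6 + (p : (R p)[X]) * T * hSS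
  have hAP6' : (p : (R p)[X]) * (4 * B.comp (1 - X)) = p * (C s * (C c * T)) := by
    have := congrArg (fun f => f.comp (1 - X)) hAP6
    simp only [mul_comp, ofNat_comp, natCast_comp, C_comp, hsym] at this
    exact this
  have hpγ : (p : (R p)[X]) * γ = p * T := by
    rw [hγd]
    linear_combination C c * C s * hAP6' + (p : (R p)[X]) * T * (C c * C c * hSS + hCC)
  obtain ⟨hP1, hP2⟩ := P_facts p
  obtain ⟨hQ1, hQ2⟩ := Q_facts p
  have hLW := LL_W (p : (R p)[X]) T ((4 * X) ^ p) ((4 * (1 - X)) ^ p) β γ hpd hLT hβ hγ hpβ hpγ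
    hP1 hP2 hQ1 hQ2
  rw [← hβd, ← hγd]
  obtain ⟨W, hWd⟩ : ∃ W, W = T * (4 - (4 * X) ^ p - (4 * (1 - X)) ^ p) +
      4 * ((4 * X) ^ p * (β - T) + (4 * (1 - X)) ^ p * (γ - T)) := ⟨_, rfl⟩
  rw [← hWd] at hLW ⊢
  -- the value at zero
  have hW0 : W.coeff 0 = 0 := by
    rw [coeff_zero_eq_eval_zero, hWd]
    have hg0 : γ.eval 0 = 4 * (c * s) * 2 ^ e := by
      rw [hγC]
      simp [eval_comp, hB1]
    have hpos : p ≠ 0 := by omega
    simp only [eval_add, eval_mul, eval_sub, eval_pow, eval_X, eval_one, eval_ofNat, hT0, hg0,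
      mul_zero, zero_pow hpos, sub_zero, mul_one, zero_mul, zero_add]
    obtain ⟨δ, hδ⟩ : ∃ δ : R p, δ = c * s * 2 ^ e := ⟨_, rfl⟩
    have h4p : (4 : R p) ^ p = 4 * δ ^ 4 := by
      have e1 : (4 : R p) ^ p = 4 * ((2 ^ e) ^ 4) :=
        (congrArg (fun n => (4 : R p) ^ n) hodd).trans (four_pow e)
      rw [e1, hδ]
      have e2 : (c * s * 2 ^ e) ^ 4 = ((c * c) * (s * s)) ^ 2 * (2 ^ e) ^ 4 := by ring
      rw [e2, hss, hcc]
      ring
    have hT1 : T.eval 1 = c * 4 := by
      have := congrArg (eval 0) hsym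
      simpa [eval_comp, hT0] using this
    have hpδ : (p : R p) * (δ - 1) = 0 := by
      have h6 := congrArg (eval 1) hAP6
      simp only [eval_mul, eval_natCast, eval_ofNat, eval_C, hB1, hT1] at h6
      have h7 : (4 : R p) * ((p : R p) * (δ - 1)) = 0 := by
        rw [hδ]
        linear_combination (c * s) * h6 + (p : R p) * 4 * (c * c * hss + hcc)
      have h4u : IsUnit (4 : R p) := by
        have : (4 : R p) = 2 * 2 := by norm_num
        rw [this]
        exact (unit_two p h3).mul (unit_two p h3)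
      exact h4u.mul_right_eq_zero.1 h7
    have hsq := sq_zero p _ hpδ
    have hgd : 4 * (c * s) * 2 ^ e = 4 * δ := by
      rw [hδ]
      ring
    rw [hgd, h4p]
    linear_combination 16 * (4 * δ ^ 3 + 3 * δ ^ 2 + 2 * δ + 1) * hsq
  have hXdvd : X ^ p ∣ W := by
    rw [X_pow_dvd_iff]
    exact low p h3 W hLW hW0
  -- symmetry
  have hWsym : W.comp (1 - X) = C c * W := by
    have hbc : β.comp (1 - X) = C c * γ := by
      rw [hβd, hγd]
      simp only [mul_comp, ofNat_comp, C_comp]
      linear_combination -(4 * (C s * B.comp (1 - X))) * hCC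
    have hgc : γ.comp (1 - X) = C c * β := by
      rw [hβd, hγd]
      simp only [mul_comp, ofNat_comp, C_comp, comp_assoc, sub_comp, one_comp, X_comp,
        sub_sub_cancel, comp_X]
      ring
    rw [hWd]
    simp only [add_comp, sub_comp, mul_comp, pow_comp, ofNat_comp, one_comp, X_comp, hbc, hgc, hsym,
      sub_sub_cancel]
    ring
  have hXdvd' : (1 - X) ^ p ∣ W := by
    obtain ⟨V, hV⟩ := hXdvd
    refine ⟨C c * V.comp (1 - X), ?_⟩
    have h1 : W = C c * W.comp (1 - X) := by
      rw [hWsym, ← mul_assoc, hCC, one_mul]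
    rw [h1]
    conv_lhs => rw [hV]
    simp only [mul_comp, pow_comp, X_comp]
    ring
  have hcop : IsCoprime ((X : (R p)[X]) ^ p) ((1 - X) ^ p) := by
    apply IsCoprime.pow
    exact ⟨1, 1, by ring⟩
  have hdvd : X ^ p * (1 - X) ^ p ∣ W := hcop.mul_dvd hXdvd hXdvd'
  have hmon : Monic ((X : (R p)[X]) ^ p * (X - C 1) ^ p) :=
    (monic_X_pow p).mul ((monic_X_sub_C 1).pow p)
  have hdvd2 : (X : (R p)[X]) ^ p * (X - C 1) ^ p ∣ W := by
    have e1 : (X : (R p)[X]) ^ p * (X - C 1) ^ p * ((-1) ^ p) = X ^ p * (1 - X) ^ p := by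
      rw [mul_assoc, ← mul_pow]
      congr 2
      rw [C_1]
      ring
    exact (Dvd.intro _ e1).trans hdvd
  by_contra hne
  have : Nontrivial (R p) := ZMod.nontrivial_iff.2 (by
    have := hp.out.two_le
    nlinarith)
  have hdeg : ((X : (R p)[X]) ^ p * (X - C 1) ^ p).natDegree = 2 * p := by
    rw [Monic.natDegree_mul (monic_X_pow p) ((monic_X_sub_C 1).pow p), natDegree_X_pow,
      Monic.natDegree_pow (monic_X_sub_C 1), natDegree_X_sub_C]
    ring
  have hWdeg : W.natDegree ≤ p + (p - 1) := by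
    have hPd : ((4 * X : (R p)[X]) ^ p).natDegree ≤ p := by
      have : (4 * X : (R p)[X]).natDegree ≤ 1 :=
        natDegree_mul_le_of_le (m := 0) (n := 1) (natDegree_ofNat 4).le natDegree_X_le
      exact (natDegree_pow_le_of_le p this).trans (by omega)
    have h1X : (1 - X : (R p)[X]).natDegree ≤ 1 := by
      refine (natDegree_sub_le _ _).trans ?_
      simp [natDegree_X_le]
    have hQd : ((4 * (1 - X) : (R p)[X]) ^ p).natDegree ≤ p := by
      have : (4 * (1 - X) : (R p)[X]).natDegree ≤ 1 :=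
        natDegree_mul_le_of_le (m := 0) (n := 1) (natDegree_ofNat 4).le h1X
      exact (natDegree_pow_le_of_le p this).trans (by omega)
    have hβdeg : β.natDegree ≤ p - 1 := by
      rw [hβC]
      exact (natDegree_C_mul_le _ _).trans hBdeg
    have hγdeg : γ.natDegree ≤ p - 1 := by
      rw [hγC]
      refine (natDegree_C_mul_le _ _).trans ?_
      refine natDegree_comp_le.trans ?_
      calc B.natDegree * (1 - X : (R p)[X]).natDegree ≤ (p - 1) * 1 := Nat.mul_le_mul hBdeg h1X
        _ = p - 1 := mul_one _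
    have h4d : (4 : (R p)[X]).natDegree ≤ p := (natDegree_ofNat 4).le.trans (Nat.zero_le _)
    rw [hWd]
    apply natDegree_add_le_of_degree_le
    · rw [add_comm p (p - 1)]
      apply natDegree_mul_le_of_le hTdeg
      apply (natDegree_sub_le _ _).trans
      apply max_le _ hQd
      exact (natDegree_sub_le _ _).trans (max_le h4d hPd)
    · have : (0 : ℕ) + (p + (p - 1)) = p + (p - 1) := zero_add _
      rw [← this]
      apply natDegree_mul_le_of_le (natDegree_ofNat 4).le
      apply natDegree_add_le_of_degree_le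
      · apply natDegree_mul_le_of_le hPd
        exact (natDegree_sub_le _ _).trans (max_le hβdeg hTdeg)
      · apply natDegree_mul_le_of_le hQd
        exact (natDegree_sub_le _ _).trans (max_le hγdeg hTdeg)
  exact hmon.not_dvd_of_natDegree_lt hne (by rw [hdeg]; omega) hdvd2

end Pool.Agent.H127.AP7
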