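import Pool.Agent.H979.BK.Stm

/-!
# BK-HG: the hypergeometric variance from exchangeability (helper127 for helper979)
-/

set_option autoImplicit false

open Filter Topology Finset Pool.Agent.H979.BK

namespace Pool.Agent.H127

namespace BKHG

/-- Two different positions of a random permutation are negatively correlated. -/
lemma corr_le {α : Type} [Fintype α] [DecidableEq α] (y : α → ℝ) (hy : ∑ a, y a = 0) {b b' : α}
    (hb : b ≠ b') : ∑ ρ : Equiv.Perm α, y (ρ b) * y (ρ b') ≤ 0 := by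
  have h1 : ∀ b'', b'' ≠ b → ∑ ρ : Equiv.Perm α, y (ρ b) * y (ρ b'') =
      ∑ ρ : Equiv.Perm α, y (ρ b) * y (ρ b') := by
    intro b'' hb''
    rw [← Equiv.sum_comp (Equiv.mulRight (Equiv.swap b' b''))]
    refine sum_congr rfl fun ρ _ => ?_
    simp only [Equiv.coe_mulRight, Equiv.Perm.mul_apply, Equiv.swap_apply_right,
      Equiv.swap_apply_of_ne_of_ne hb hb''.symm]
  have h2 : ∑ b'', ∑ ρ : Equiv.Perm α, y (ρ b) * y (ρ b'') = 0 := by
    rw [sum_comm]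
    refine sum_eq_zero fun ρ _ => ?_
    rw [← mul_sum, Equiv.sum_comp ρ y, hy, mul_zero]
  have h3 : ∑ b'' ∈ univ.erase b, ∑ ρ : Equiv.Perm α, y (ρ b) * y (ρ b'') =
      ((univ.erase b).card : ℝ) * ∑ ρ : Equiv.Perm α, y (ρ b) * y (ρ b') := by
    rw [sum_congr rfl fun b'' h => h1 b'' (ne_of_mem_erase h), sum_const, nsmul_eq_mul]
  have h4 := add_sum_erase univ (fun b'' => ∑ ρ : Equiv.Perm α, y (ρ b) * y (ρ b'')) (mem_univ b)
  have h5 : 0 ≤ ∑ ρ : Equiv.Perm α, y (ρ b) * y (ρ b) := sum_nonneg fun ρ _ => mul_self_nonneg _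
  have h6 : 0 < ((univ.erase b).card : ℝ) := by
    exact_mod_cast card_pos.2 ⟨b', mem_erase.2 ⟨hb.symm, mem_univ _⟩⟩
  by_contra h7
  have h8 := mul_pos h6 (not_le.1 h7)
  simp only [h3, h2] at h4
  linarith

/-- The variance of a sum over a random subset. -/
lemma perm_var {α : Type} [Fintype α] [DecidableEq α] (y : α → ℝ) (hy : ∑ a, y a = 0)
    (hy1 : ∀ a, y a * y a ≤ 1) (K : Finset α) :
    ∑ ρ : Equiv.Perm α, (∑ b ∈ K, y (ρ b)) ^ 2 ≤
      (Fintype.card (Equiv.Perm α) : ℝ) * K.card := by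
  have h1 : ∀ ρ : Equiv.Perm α, (∑ b ∈ K, y (ρ b)) ^ 2 =
      ∑ b ∈ K, ∑ b' ∈ K, y (ρ b) * y (ρ b') := by
    intro ρ
    rw [sq, sum_mul_sum]
  rw [sum_congr rfl fun ρ _ => h1 ρ, sum_comm]
  have h2 : ∀ b ∈ K, ∑ ρ : Equiv.Perm α, ∑ b' ∈ K, y (ρ b) * y (ρ b') ≤
      (Fintype.card (Equiv.Perm α) : ℝ) := by
    intro b hb
    rw [sum_comm, ← add_sum_erase K _ hb]
    have h3 : ∑ b' ∈ K.erase b, ∑ ρ : Equiv.Perm α, y (ρ b) * y (ρ b') ≤ 0 :=
      sum_nonpos fun b' h => corr_le y hy (ne_of_mem_erase h).symm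
    have h4 : ∑ ρ : Equiv.Perm α, y (ρ b) * y (ρ b) ≤ (Fintype.card (Equiv.Perm α) : ℝ) := by
      calc ∑ ρ : Equiv.Perm α, y (ρ b) * y (ρ b) ≤ ∑ ρ : Equiv.Perm α, (1 : ℝ) :=
            sum_le_sum fun ρ _ => hy1 _
        _ = (Fintype.card (Equiv.Perm α) : ℝ) := by
            rw [sum_const, nsmul_eq_mul, mul_one, card_univ]
    linarith
  calc ∑ b ∈ K, ∑ ρ : Equiv.Perm α, ∑ b' ∈ K, y (ρ b) * y (ρ b')
      ≤ ∑ b ∈ K, (Fintype.card (Equiv.Perm α) : ℝ) := sum_le_sum h2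
    _ = (Fintype.card (Equiv.Perm α) : ℝ) * K.card := by
        rw [sum_const, nsmul_eq_mul, mul_comm]

/-- `kap` as a sum. -/
lemma kap_eq {d n : ℕ} (K : Finset (Ball d n)) (u : Ball d n → Fin d) (l : Fin d) :
    (kap K u l : ℝ) = ∑ b ∈ K, if u b = l then (1 : ℝ) else 0 := by
  unfold kap
  rw [sum_boole]

/-- Sums over a subset of `W` composed with a permutation of `W`. -/
lemma sum_sub {d n : ℕ} {W K : Finset (Ball d n)} (hK : K ⊆ W)
    (ρ : Equiv.Perm {b // b ∈ W}) (F : Ball d n → ℝ) :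
    ∑ b ∈ K.subtype (fun b => b ∈ W), F (ρ b) = ∑ b ∈ K, F (Equiv.Perm.ofSubtype ρ b) := by
  rw [← sum_subtype_of_mem (fun b => F (Equiv.Perm.ofSubtype ρ b)) (fun b hb => hK hb)]
  exact sum_congr rfl fun b _ => by rw [Equiv.Perm.ofSubtype_apply_coe]

/-- The number of balls of `W` in urn `l` is invariant. -/
lemma kap_inv {d n : ℕ} (W : Finset (Ball d n)) (ρ : Equiv.Perm {b // b ∈ W})
    (u : Ball d n → Fin d) (l : Fin d) :
    (kap W (u ∘ Equiv.Perm.ofSubtype ρ) l : ℝ) = kap W u l := by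
  rw [kap_eq, kap_eq]
  have h1 := sum_sub (subset_refl W) ρ (fun b => if u b = l then (1 : ℝ) else 0)
  have h2 : W.subtype (fun b => b ∈ W) = univ := by
    ext b
    rw [mem_subtype]
    exact ⟨fun _ => mem_univ _, fun _ => b.2⟩
  have h3 : ∑ b ∈ W.subtype (fun b => b ∈ W), (if u (b : Ball d n) = l then (1 : ℝ) else 0) =
      ∑ b ∈ W, (if u b = l then (1 : ℝ) else 0) :=
    sum_subtype_of_mem (fun b => if u b = l then (1 : ℝ) else 0) (fun b hb => hb)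
  rw [h2] at h1 h3
  calc ∑ b ∈ W, (if (u ∘ Equiv.Perm.ofSubtype ρ) b = l then (1 : ℝ) else 0)
      = ∑ b : {b // b ∈ W}, (if u (ρ b : Ball d n) = l then (1 : ℝ) else 0) := h1.symm
    _ = ∑ b : {b // b ∈ W}, (if u (b : Ball d n) = l then (1 : ℝ) else 0) :=
        Equiv.sum_comp ρ (fun b : {b // b ∈ W} => if u (b : Ball d n) = l then (1 : ℝ) else 0)
    _ = ∑ b ∈ W, (if u b = l then (1 : ℝ) else 0) := h3

/-- The average over the permutations of `W`. -/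
lemma avg_le {d n : ℕ} {W K : Finset (Ball d n)} (hK : K ⊆ W) (u : Ball d n → Fin d)
    (l : Fin d) :
    ∑ ρ : Equiv.Perm {b // b ∈ W}, ((kap K (u ∘ Equiv.Perm.ofSubtype ρ) l : ℝ) -
        (K.card : ℝ) * kap W u l / (W.card : ℝ)) ^ 2 ≤
      (Fintype.card (Equiv.Perm {b // b ∈ W}) : ℝ) * K.card := by
  set y : {b // b ∈ W} → ℝ := fun b =>
    (if u b = l then (1 : ℝ) else 0) - (kap W u l : ℝ) / W.card with hy
  have hkw : (kap W u l : ℝ) ≤ W.card := by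
    exact_mod_cast card_filter_le _ _
  have h01 : 0 ≤ (kap W u l : ℝ) / W.card ∧ (kap W u l : ℝ) / W.card ≤ 1 :=
    ⟨by positivity, div_le_one_of_le₀ hkw (Nat.cast_nonneg _)⟩
  have hy0 : ∑ b, y b = 0 := by
    have h2 : W.subtype (fun b => b ∈ W) = univ := by
      ext b
      rw [mem_subtype]
      exact ⟨fun _ => mem_univ _, fun _ => b.2⟩
    have h3 : ∑ b ∈ W.subtype (fun b => b ∈ W), (if u (b : Ball d n) = l then (1 : ℝ) else 0) =
        ∑ b ∈ W, (if u b = l then (1 : ℝ) else 0) :=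
      sum_subtype_of_mem (fun b => if u b = l then (1 : ℝ) else 0) (fun b hb => hb)
    rw [h2, ← kap_eq] at h3
    rw [hy, sum_sub_distrib, h3, sum_const, card_univ, Fintype.card_coe, nsmul_eq_mul]
    by_cases hW : (W.card : ℝ) = 0
    · have h4 : (kap W u l : ℝ) = 0 := le_antisymm (hW ▸ hkw) (Nat.cast_nonneg _)
      rw [h4, zero_div, mul_zero, sub_zero]
    · rw [mul_div_cancel₀ _ hW, sub_self]
  have hy1 : ∀ b, y b * y b ≤ 1 := by
    intro b
    have h3 : |y b| ≤ 1 := by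
      rw [hy]
      dsimp only
      split_ifs
      · rw [abs_le]
        constructor <;> linarith [h01.1, h01.2]
      · rw [abs_le]
        constructor <;> linarith [h01.1, h01.2]
    calc y b * y b = |y b| * |y b| := (abs_mul_abs_self _).symm
      _ ≤ 1 * 1 := mul_le_mul h3 h3 (abs_nonneg _) zero_le_one
      _ = 1 := one_mul 1
  have h5 := perm_var y hy0 hy1 (K.subtype fun b => b ∈ W)
  have h6 : (K.subtype fun b => b ∈ W).card = K.card := by
    rw [card_subtype, filter_true_of_mem fun b hb => hK hb]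
  rw [h6] at h5
  refine le_trans (le_of_eq (sum_congr rfl fun ρ _ => ?_)) h5
  congr 1
  have h7 := sum_sub hK ρ (fun b => (if u b = l then (1 : ℝ) else 0) - (kap W u l : ℝ) / W.card)
  rw [kap_eq]
  refine Eq.trans ?_ h7.symm
  rw [sum_sub_distrib, sum_const, nsmul_eq_mul, mul_div_assoc]
  rfl

end BKHG

open BKHG in
/-- HG -/
theorem bk_hg (h1 : S_A1) (h2 : S_A2) : S_HG := by
  classical
  intro d n k μ hμ hk m i l W K Φ hW hK hΦ hinv
  obtain ⟨p, hp0, -, -, hp⟩ := h1 d n k μ hμ hk m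
  set f : (Ball d n → Fin d) → ℝ := fun u =>
    Φ u * ((kap (K u) u l : ℝ) - ((K u).card : ℝ) * kap W u l / (W.card : ℝ)) ^ 2 with hf
  set N : ℝ := (Fintype.card (Equiv.Perm {b // b ∈ W}) : ℝ) with hN
  have hN0 : 0 < N := by
    rw [hN]
    exact_mod_cast Fintype.card_pos
  have hinv1 : ∀ ρ : Equiv.Perm {b // b ∈ W}, E μ k m (fun u => f (u ∘ Equiv.Perm.ofSubtype ρ)) =
      E μ k m f := by
    intro ρ
    refine (h2 d n k μ m).1 f (Equiv.Perm.ofSubtype ρ) fun b => ?_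
    by_cases hb : b ∈ W
    · rw [Equiv.Perm.ofSubtype_apply_of_mem ρ hb, hW _ (ρ ⟨b, hb⟩).2, hW b hb]
    · rw [Equiv.Perm.ofSubtype_apply_of_not_mem ρ hb]
  have hfix : ∀ ρ : Equiv.Perm {b // b ∈ W}, ∀ b, b ∉ W → Equiv.Perm.ofSubtype ρ b = b :=
    fun ρ b hb => Equiv.Perm.ofSubtype_apply_of_not_mem ρ hb
  have hpt : ∀ u, ∑ ρ : Equiv.Perm {b // b ∈ W}, f (u ∘ Equiv.Perm.ofSubtype ρ) ≤
      N * (Φ u * ((K u).card : ℝ)) := by
    intro u
    have h3 : ∀ ρ : Equiv.Perm {b // b ∈ W}, f (u ∘ Equiv.Perm.ofSubtype ρ) =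
        Φ u * ((kap (K u) (u ∘ Equiv.Perm.ofSubtype ρ) l : ℝ) -
          ((K u).card : ℝ) * kap W u l / (W.card : ℝ)) ^ 2 := by
      intro ρ
      obtain ⟨h4, h5⟩ := hinv (Equiv.Perm.ofSubtype ρ) (hfix ρ) u
      rw [hf]
      dsimp only
      rw [h4, h5, kap_inv]
    rw [sum_congr rfl fun ρ _ => h3 ρ, ← mul_sum]
    calc Φ u * ∑ ρ : Equiv.Perm {b // b ∈ W}, ((kap (K u) (u ∘ Equiv.Perm.ofSubtype ρ) l : ℝ) -
          ((K u).card : ℝ) * kap W u l / (W.card : ℝ)) ^ 2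
        ≤ Φ u * (N * ((K u).card : ℝ)) := mul_le_mul_of_nonneg_left (avg_le (hK u) u l) (hΦ u)
      _ = N * (Φ u * ((K u).card : ℝ)) := by ring
  have h6 : N * E μ k m f ≤ N * E μ k m (fun u => Φ u * ((K u).card : ℝ)) := by
    calc N * E μ k m f = ∑ ρ : Equiv.Perm {b // b ∈ W}, E μ k m f := by
          rw [sum_const, nsmul_eq_mul, card_univ]
      _ = ∑ ρ : Equiv.Perm {b // b ∈ W}, E μ k m (fun u => f (u ∘ Equiv.Perm.ofSubtype ρ)) :=
          sum_congr rfl fun ρ _ => (hinv1 ρ).symm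
      _ = ∑ ρ : Equiv.Perm {b // b ∈ W}, ∑ u, p u * f (u ∘ Equiv.Perm.ofSubtype ρ) :=
          sum_congr rfl fun ρ _ => hp _
      _ = ∑ u, p u * ∑ ρ : Equiv.Perm {b // b ∈ W}, f (u ∘ Equiv.Perm.ofSubtype ρ) := by
          rw [sum_comm]
          exact sum_congr rfl fun u _ => (mul_sum _ _ _).symm
      _ ≤ ∑ u, p u * (N * (Φ u * ((K u).card : ℝ))) :=
          sum_le_sum fun u _ => mul_le_mul_of_nonneg_left (hpt u) (hp0 u)
      _ = N * ∑ u, p u * (Φ u * ((K u).card : ℝ)) := by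
          rw [mul_sum]
          exact sum_congr rfl fun u _ => by ring
      _ = N * E μ k m (fun u => Φ u * ((K u).card : ℝ)) := by rw [hp]
  exact le_of_mul_le_mul_left h6 hN0

end Pool.Agent.H127
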