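import Pool.Agent.H252.EL.Iface

set_option autoImplicit false

noncomputable section

namespace Pool.Agent.H127.ELSPEC

open Pool.Agent.H252.EL Filter Topology
open scoped ENNReal NNReal Matrix.Norms.L2Operator ComplexOrder CStarAlgebra

lemma cut_sq {B : Type} [CStarAlgebra B] (η : ℝ) (a : B) : ∃ y, cut η a = star y * y := by
  refine ⟨cfc (fun t : ℝ => Real.sqrt (max (t - η) 0)) a, ?_⟩
  have hsa : IsSelfAdjoint (cfc (fun t : ℝ => Real.sqrt (max (t - η) 0)) a) :=
    cfc_predicate _ _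
  rw [hsa.star_eq]
  have hc : Continuous fun t : ℝ => Real.sqrt (max (t - η) 0) := by fun_prop
  rw [← cfc_mul (fun t : ℝ => Real.sqrt (max (t - η) 0)) (fun t : ℝ => Real.sqrt (max (t - η) 0)) a
    hc.continuousOn hc.continuousOn]
  unfold cut
  refine cfc_congr fun t _ => ?_
  exact (Real.mul_self_sqrt (le_max_right _ _)).symm

/-- evaluation at a point -/
def ev {Z : Type} [TopologicalSpace Z] [CompactSpace Z] {n : ℕ} (z : Z) :
    BB Z n →⋆ₐ[ℂ] Matrix (Fin n) (Fin n) ℂ where
  toFun f := f z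
  map_one' := rfl
  map_mul' _ _ := rfl
  map_zero' := rfl
  map_add' _ _ := rfl
  commutes' _ := rfl
  map_star' _ := rfl

lemma cut_map {B C : Type} [CStarAlgebra B] [CStarAlgebra C] (φ : B →⋆ₐ[ℂ] C) (η : ℝ) (a : B)
    (ha : IsSelfAdjoint a) : φ (cut η a) = cut η (φ a) := by
  have hc : Continuous fun t : ℝ => max (t - η) 0 := by fun_prop
  have hcont : Continuous φ := map_continuous φ
  exact StarAlgHomClass.map_cfc (S := ℂ) φ (fun t : ℝ => max (t - η) 0) a
    hc.continuousOn hcont ha (ha.map φ)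

lemma cut_eval {Z : Type} [TopologicalSpace Z] [CompactSpace Z] {n : ℕ} (η : ℝ) (a : BB Z n)
    (ha : IsSelfAdjoint a) (z : Z) : (cut η a) z = cut η (a z) :=
  cut_map (ev (n := n) z) η a ha

/-- functions of a hermitian matrix -/
def Mg {n : ℕ} {b : Matrix (Fin n) (Fin n) ℂ} (h : b.IsHermitian) (g : ℝ → ℝ) :
    Matrix (Fin n) (Fin n) ℂ :=
  (h.eigenvectorUnitary : Matrix (Fin n) (Fin n) ℂ) *
    Matrix.diagonal (fun i => ((g (h.eigenvalues i) : ℝ) : ℂ)) *
    star (h.eigenvectorUnitary : Matrix (Fin n) (Fin n) ℂ)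

section
variable {n : ℕ} {b : Matrix (Fin n) (Fin n) ℂ} (h : b.IsHermitian)

lemma UU : star (h.eigenvectorUnitary : Matrix (Fin n) (Fin n) ℂ) *
    (h.eigenvectorUnitary : Matrix (Fin n) (Fin n) ℂ) = 1 :=
  Unitary.coe_star_mul_self h.eigenvectorUnitary

lemma UU' : (h.eigenvectorUnitary : Matrix (Fin n) (Fin n) ℂ) *
    star (h.eigenvectorUnitary : Matrix (Fin n) (Fin n) ℂ) = 1 :=
  Unitary.coe_mul_star_self h.eigenvectorUnitary

lemma Mg_mul (f g : ℝ → ℝ) : Mg h f * Mg h g = Mg h (fun t => f t * g t) := by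
  unfold Mg
  set U : Matrix (Fin n) (Fin n) ℂ := (h.eigenvectorUnitary : Matrix (Fin n) (Fin n) ℂ)
  have e : ∀ X Y : Matrix (Fin n) (Fin n) ℂ, U * X * star U * (U * Y * star U) =
      U * X * (star U * U) * Y * star U := by
    intro X Y
    simp only [Matrix.mul_assoc]
  rw [e, UU h, Matrix.mul_one, Matrix.mul_assoc U, Matrix.diagonal_mul_diagonal]
  simp only [Complex.ofReal_mul]

lemma Mg_sub_smul (f g : ℝ → ℝ) (c : ℝ) :
    Mg h f - (c : ℂ) • Mg h g = Mg h (fun t => f t - c * g t) := by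
  unfold Mg
  set U : Matrix (Fin n) (Fin n) ℂ := (h.eigenvectorUnitary : Matrix (Fin n) (Fin n) ℂ)
  rw [← Matrix.smul_mul, ← Matrix.mul_smul, ← Matrix.sub_mul, ← Matrix.mul_sub]
  congr 2
  ext i j
  by_cases hij : i = j
  · subst hij
    simp
  · simp [Matrix.diagonal_apply_ne _ hij]

lemma Mg_star (f : ℝ → ℝ) : star (Mg h f) = Mg h f := by
  unfold Mg
  rw [star_mul, star_mul, star_star, ← Matrix.mul_assoc]
  congr 2
  rw [Matrix.star_eq_conjTranspose, Matrix.diagonal_conjTranspose]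
  congr 1
  funext i
  simp

lemma Mg_pos (f : ℝ → ℝ) (hf : ∀ t, 0 ≤ f t) : (Mg h f).PosSemidef := by
  have e : Mg h f = (Mg h (fun t => Real.sqrt (f t))).conjTranspose *
      Mg h (fun t => Real.sqrt (f t)) := by
    rw [← Matrix.star_eq_conjTranspose, Mg_star, Mg_mul]
    congr 1
    funext t
    exact (Real.mul_self_sqrt (hf t)).symm
  rw [e]
  exact Matrix.posSemidef_conjTranspose_mul_self _

lemma Mg_id : Mg h (fun t => t) = b := by
  conv_rhs => rw [h.spectral_theorem]
  rfl

lemma Mg_cfc (f : ℝ → ℝ) : cfc f b = Mg h f := by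
  rw [h.cfc_eq]
  rfl

lemma Mg_rank (f : ℝ → ℝ) : (Mg h f).rank = Fintype.card {i // f (h.eigenvalues i) ≠ 0} := by
  unfold Mg
  have hU : IsUnit (h.eigenvectorUnitary : Matrix (Fin n) (Fin n) ℂ).det :=
    Matrix.isUnit_det_of_left_inverse (UU h)
  have hU' : IsUnit (star (h.eigenvectorUnitary : Matrix (Fin n) (Fin n) ℂ)).det :=
    Matrix.isUnit_det_of_left_inverse (UU' h)
  rw [Matrix.rank_mul_eq_left_of_isUnit_det _ _ hU', Matrix.rank_mul_eq_right_of_isUnit_det _ _ hU,
    Matrix.rank_diagonal]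
  simp only [ne_eq, Complex.ofReal_eq_zero]

lemma eig_le (h1 : (1 - b).PosSemidef) (i : Fin n) : h.eigenvalues i ≤ 1 := by
  have e : star (h.eigenvectorUnitary : Matrix (Fin n) (Fin n) ℂ) * (1 - b) *
      (h.eigenvectorUnitary : Matrix (Fin n) (Fin n) ℂ) =
      Matrix.diagonal (fun i => ((1 - h.eigenvalues i : ℝ) : ℂ)) := by
    have hid : b = (h.eigenvectorUnitary : Matrix (Fin n) (Fin n) ℂ) *
        Matrix.diagonal (fun i => ((h.eigenvalues i : ℝ) : ℂ)) *
        star (h.eigenvectorUnitary : Matrix (Fin n) (Fin n) ℂ) := (Mg_id h).symm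
    have hid2 : star (h.eigenvectorUnitary : Matrix (Fin n) (Fin n) ℂ) * b *
        (h.eigenvectorUnitary : Matrix (Fin n) (Fin n) ℂ) =
        Matrix.diagonal (fun i => ((h.eigenvalues i : ℝ) : ℂ)) := by
      set U : Matrix (Fin n) (Fin n) ℂ := (h.eigenvectorUnitary : Matrix (Fin n) (Fin n) ℂ) with hU
      set X : Matrix (Fin n) (Fin n) ℂ := Matrix.diagonal (fun i => ((h.eigenvalues i : ℝ) : ℂ))
      calc star U * b * U = star U * (U * X * star U) * U := by
            exact congrArg (fun Y => star U * Y * U) hid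
        _ = (star U * U) * X * (star U * U) := by simp only [Matrix.mul_assoc]
        _ = X := by rw [UU h, Matrix.one_mul, Matrix.mul_one]
    rw [Matrix.mul_sub, Matrix.sub_mul, Matrix.mul_one, UU h, hid2]
    ext i j
    by_cases hij : i = j
    · subst hij
      simp
    · simp [Matrix.diagonal_apply_ne _ hij, Matrix.one_apply_ne hij]
  have h2 := h1.conjTranspose_mul_mul_same (h.eigenvectorUnitary : Matrix (Fin n) (Fin n) ℂ)
  rw [← Matrix.star_eq_conjTranspose, e, Matrix.posSemidef_diagonal_iff] at h2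
  have h3 := h2 i
  have h4 : (0 : ℝ) ≤ 1 - h.eigenvalues i := by exact_mod_cast h3
  linarith

end

theorem s_SPEC : S_SPEC := by
  intro Z _ _ n a ⟨y, hy⟩ ⟨y', hy'⟩ η hη
  refine ⟨cut_sq η a, fun z => ?_⟩
  have ha : IsSelfAdjoint a := by
    rw [hy]
    exact IsSelfAdjoint.star_mul_self y
  rw [cut_eval η a ha z]
  set b : Matrix (Fin n) (Fin n) ℂ := a z with hb
  have hby : b = star (y z) * (y z) := by
    rw [hb, hy]
    rfl
  have hby' : 1 - b = star (y' z) * (y' z) := by
    have : (1 - a) z = (star y' * y') z := by rw [hy']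
    exact this
  have hherm : b.IsHermitian := by
    rw [hby]
    exact Matrix.isHermitian_conjTranspose_mul_self _
  have hposd' : (1 - b).PosSemidef := by
    rw [hby']
    exact Matrix.posSemidef_conjTranspose_mul_self _
  have hcut : cut η b = Mg hherm (fun t => max (t - η) 0) := Mg_cfc hherm _
  refine ⟨Mg hherm (fun t => if 2 * η ≤ t then 1 else 0), ?_, ?_, ?_⟩
  · refine ⟨?_, Mg_star _ _⟩
    show _ * _ = _
    rw [Mg_mul]
    congr 1
    funext t
    split_ifs <;> simp
  · rw [Mg_rank, hherm.trace_eq_sum_eigenvalues]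
    have h1 : ∀ i, hherm.eigenvalues i ≤ (if 2 * η ≤ hherm.eigenvalues i then 1 else 0) + 2 * η := by
      intro i
      split_ifs with h
      · have := eig_le hherm hposd' i
        linarith
      · linarith
    have h2 : ∑ i, hherm.eigenvalues i ≤
        ∑ i, ((if 2 * η ≤ hherm.eigenvalues i then (1 : ℝ) else 0) + 2 * η) :=
      Finset.sum_le_sum fun i _ => h1 i
    rw [Finset.sum_add_distrib, Finset.sum_const, Finset.card_univ, Fintype.card_fin, nsmul_eq_mul,
      Finset.sum_boole] at h2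
    have h3 : Fintype.card {i // (if 2 * η ≤ hherm.eigenvalues i then (1 : ℝ) else 0) ≠ 0} =
        (Finset.univ.filter fun i => 2 * η ≤ hherm.eigenvalues i).card := by
      rw [Fintype.card_subtype]
      congr 1
      ext i
      simp
    rw [h3]
    simp only [Complex.re_sum, Complex.coe_algebraMap, Complex.ofReal_re]
    linarith
  · rw [hcut, Mg_sub_smul]
    apply Mg_pos
    intro t
    split_ifs with h
    · have := le_max_left (t - η) 0
      linarith
    · have := le_max_right (t - η) 0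
      linarith

end Pool.Agent.H127.ELSPEC
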