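import Pool.Agent.H867.FT.Gen

set_option autoImplicit false
set_option linter.unusedSectionVars false

namespace Pool.Agent.H127.FT867REF

open Polynomial Pool.Agent.H867.FT

/-! ### The modules `P + P x + ... + P x^n` -/

section mn

/-- `P + P x + ... + P x^n` -/
def Mn (P : Type) {K : Type} [CommRing P] [Field K] [Algebra P K] (x : K) (n : ℕ) :
    Submodule P K :=
  Submodule.span P (Set.range fun i : Fin (n + 1) => x ^ (i : ℕ))

variable {P K : Type} [CommRing P] [Field K] [Algebra P K]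

theorem mem_Mn {x z : K} {n : ℕ} :
    z ∈ Mn P x n ↔ ∃ p : P[X], p.natDegree ≤ n ∧ aeval x p = z := by
  constructor
  · intro h
    obtain ⟨c, hc⟩ := (Submodule.mem_span_range_iff_exists_fun P).1 h
    refine ⟨∑ i : Fin (n + 1), C (c i) * X ^ (i : ℕ), ?_, ?_⟩
    · refine natDegree_sum_le_of_forall_le _ _ fun i _ => ?_
      exact (natDegree_C_mul_X_pow_le _ _).trans (by omega)
    · rw [map_sum, ← hc]
      refine Finset.sum_congr rfl fun i _ => ?_
      rw [map_mul, aeval_C, map_pow, aeval_X, Algebra.smul_def]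
  · rintro ⟨p, hp, rfl⟩
    rw [aeval_eq_sum_range' (Nat.lt_succ_of_le hp)]
    refine Submodule.sum_mem _ fun i hi => Submodule.smul_mem _ _ ?_
    exact Submodule.subset_span ⟨⟨i, Finset.mem_range.1 hi⟩, rfl⟩

theorem pow_mem {x : K} {n i : ℕ} (h : i ≤ n) : x ^ i ∈ Mn P x n :=
  Submodule.subset_span ⟨⟨i, Nat.lt_succ_of_le h⟩, rfl⟩

theorem mul_mem (x : K) (n : ℕ) (s : P) {z : K} (h : z ∈ Mn P x n) :
    algebraMap P K s * z ∈ Mn P x n := by
  rw [← Algebra.smul_def]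
  exact Submodule.smul_mem _ _ h

theorem shift {x z : K} {n : ℕ} (l : P) (h : z ∈ Mn P x n) :
    z ∈ Mn P (x - algebraMap P K l) n := by
  obtain ⟨p, hp, rfl⟩ := mem_Mn.1 h
  refine mem_Mn.2 ⟨p.comp (X + C l), ?_, ?_⟩
  · refine natDegree_comp_le.trans ?_
    calc p.natDegree * (X + C l).natDegree ≤ n * 1 :=
          Nat.mul_le_mul hp ((natDegree_add_le _ _).trans (max_le natDegree_X_le (by simp)))
      _ = n := mul_one n
  · rw [aeval_comp, map_add, aeval_X, aeval_C, sub_add_cancel]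

theorem inv_mem {x z : K} {n : ℕ} (hx : x ≠ 0) (h : z ∈ Mn P x n) :
    z * x⁻¹ ^ n ∈ Mn P x⁻¹ n := by
  unfold Mn at h
  induction h using Submodule.span_induction with
  | mem z hz =>
    obtain ⟨i, rfl⟩ := hz
    have hi : (i : ℕ) ≤ n := Nat.lt_succ_iff.1 i.isLt
    have e : x ^ (i : ℕ) * x⁻¹ ^ n = x⁻¹ ^ (n - (i : ℕ)) := by
      have : x⁻¹ ^ n = x⁻¹ ^ (i : ℕ) * x⁻¹ ^ (n - (i : ℕ)) := by
        rw [← pow_add, Nat.add_sub_cancel' hi]
      rw [this, ← mul_assoc, ← mul_pow, mul_inv_cancel₀ hx, one_pow, one_mul]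
    simp only
    rw [e]
    exact pow_mem (Nat.sub_le _ _)
  | zero => rw [zero_mul]; exact Submodule.zero_mem _
  | add y z _ _ hy hz => rw [add_mul]; exact Submodule.add_mem _ hy hz
  | smul c y _ hy => rw [smul_mul_assoc]; exact Submodule.smul_mem _ _ hy

end mn

/-! ### Cubic data -/

/-- `x` is a root of the cubic form with the coefficients `a, b, c, d`, and generates `K / L`. -/
structure Cub (P L K : Type) [CommRing P] [Field L] [Algebra P L] [Field K] [Algebra P K]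
    [Algebra L K] (a b c d : P) (x : K) : Prop where
  ne : a ≠ 0
  rel : algebraMap P K a * x ^ 3 + algebraMap P K b * x ^ 2 + algebraMap P K c * x +
        algebraMap P K d = 0
  ind : ∀ l₀ l₁ l₂ : L, algebraMap L K l₀ + algebraMap L K l₁ * x + algebraMap L K l₂ * x ^ 2 = 0 →
        l₀ = 0 ∧ l₁ = 0 ∧ l₂ = 0
  gen : ∀ z : K, ∃ l₀ l₁ l₂ : L, z = algebraMap L K l₀ + algebraMap L K l₁ * x +
      algebraMap L K l₂ * x ^ 2

section cub

variable {P L K : Type} [CommRing P] [IsDomain P] [Field L] [Algebra P L] [IsFractionRing P L]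
  [Field K] [Algebra P K] [Algebra L K] [IsScalarTower P L K] {a b c d : P} {x : K}

theorem alg (g : P) : algebraMap L K (algebraMap P L g) = algebraMap P K g :=
  (IsScalarTower.algebraMap_apply P L K g).symm

theorem indP (h : Cub P L K a b c d x) (g₀ g₁ g₂ : P)
    (hg : algebraMap P K g₀ + algebraMap P K g₁ * x + algebraMap P K g₂ * x ^ 2 = 0) :
    g₀ = 0 ∧ g₁ = 0 ∧ g₂ = 0 := by
  rw [← alg (L := L) g₀, ← alg (L := L) g₁, ← alg (L := L) g₂] at hg
  obtain ⟨h0, h1, h2⟩ := h.ind _ _ _ hg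
  have hi := IsFractionRing.injective P L
  exact ⟨hi (by rw [h0, map_zero]), hi (by rw [h1, map_zero]), hi (by rw [h2, map_zero])⟩

theorem x_ne (h : Cub P L K a b c d x) : x ≠ 0 := by
  rintro rfl
  have := h.ind 0 1 0 (by simp)
  exact one_ne_zero this.2.1

theorem d_ne (h : Cub P L K a b c d x) : d ≠ 0 := by
  rintro rfl
  have h1 := h.rel
  have h2 : x * (algebraMap P K c + algebraMap P K b * x + algebraMap P K a * x ^ 2) = 0 := by
    rw [map_zero] at h1
    linear_combination h1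
  have h3 := (mul_eq_zero.1 h2).resolve_left (x_ne h)
  exact h.ne (indP h _ _ _ h3).2.2

theorem cub_shift (h : Cub P L K a b c d x) (l : P) :
    Cub P L K a (3 * a * l + b) (3 * a * l ^ 2 + 2 * b * l + c) (a * l ^ 3 + b * l ^ 2 + c * l + d)
      (x - algebraMap P K l) := by
  refine ⟨h.ne, ?_, ?_, ?_⟩
  · simp only [map_add, map_mul, map_pow, map_ofNat]
    linear_combination h.rel
  · intro l₀ l₁ l₂ he
    rw [← alg (K := K) (L := L) l] at he
    have h1 := h.ind (l₀ - l₁ * algebraMap P L l + l₂ * algebraMap P L l ^ 2)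
      (l₁ - 2 * l₂ * algebraMap P L l) l₂ (by
        simp only [map_add, map_sub, map_mul, map_pow, map_ofNat]
        linear_combination he)
    obtain ⟨h2, h3, h4⟩ := h1
    rw [h4] at h2 h3
    have h5 : l₁ = 0 := by linear_combination h3
    rw [h5] at h2
    exact ⟨by linear_combination h2, h5, h4⟩
  · intro z
    obtain ⟨l₀, l₁, l₂, rfl⟩ := h.gen z
    refine ⟨l₀ + l₁ * algebraMap P L l + l₂ * algebraMap P L l ^ 2,
      l₁ + 2 * l₂ * algebraMap P L l, l₂, ?_⟩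
    rw [← alg (K := K) (L := L) l]
    simp only [map_add, map_mul, map_pow, map_ofNat]
    ring

theorem cub_inv (h : Cub P L K a b c d x) : Cub P L K d c b a x⁻¹ := by
  have hx := x_ne h
  refine ⟨d_ne h, ?_, ?_, ?_⟩
  · have e : algebraMap P K d * x⁻¹ ^ 3 + algebraMap P K c * x⁻¹ ^ 2 + algebraMap P K b * x⁻¹ +
        algebraMap P K a = x⁻¹ ^ 3 * (algebraMap P K a * x ^ 3 + algebraMap P K b * x ^ 2 +
          algebraMap P K c * x + algebraMap P K d) := by
      field_simp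
      ring
    rw [e, h.rel, mul_zero]
  · intro l₀ l₁ l₂ he
    have e : algebraMap L K l₂ + algebraMap L K l₁ * x + algebraMap L K l₀ * x ^ 2 =
        x ^ 2 * (algebraMap L K l₀ + algebraMap L K l₁ * x⁻¹ + algebraMap L K l₂ * x⁻¹ ^ 2) := by
      field_simp
      ring
    rw [he, mul_zero] at e
    obtain ⟨h1, h2, h3⟩ := h.ind _ _ _ e
    exact ⟨h3, h2, h1⟩
  · intro z
    obtain ⟨l₀, l₁, l₂, hz⟩ := h.gen (z * x ^ 2)
    refine ⟨l₂, l₁, l₀, ?_⟩
    have e : z = x⁻¹ ^ 2 * (z * x ^ 2) := by field_simp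
    rw [e, hz]
    field_simp
    ring

theorem red_pow (h : Cub P L K a b c d x) (k : ℕ) : ∃ g₀ g₁ g₂ : P,
    algebraMap P K a ^ k * x ^ k =
      algebraMap P K g₀ + algebraMap P K g₁ * x + algebraMap P K g₂ * x ^ 2 := by
  induction k with
  | zero => exact ⟨1, 0, 0, by simp⟩
  | succ k ih =>
    obtain ⟨g₀, g₁, g₂, hg⟩ := ih
    refine ⟨-(g₂ * d), a * g₀ - g₂ * c, a * g₁ - g₂ * b, ?_⟩
    simp only [map_neg, map_sub, map_mul]
    rw [pow_succ, pow_succ]
    linear_combination (algebraMap P K a * x) * hg + algebraMap P K g₂ * h.rel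

theorem red (h : Cub P L K a b c d x) (n : ℕ) {m : K} (hm : m ∈ Mn P x n) : ∃ g₀ g₁ g₂ : P,
    algebraMap P K a ^ n * m =
      algebraMap P K g₀ + algebraMap P K g₁ * x + algebraMap P K g₂ * x ^ 2 := by
  unfold Mn at hm
  induction hm using Submodule.span_induction with
  | mem z hz =>
    obtain ⟨i, rfl⟩ := hz
    have hi : (i : ℕ) ≤ n := Nat.lt_succ_iff.1 i.isLt
    obtain ⟨g₀, g₁, g₂, hg⟩ := red_pow h i
    refine ⟨a ^ (n - i) * g₀, a ^ (n - i) * g₁, a ^ (n - i) * g₂, ?_⟩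
    have e : algebraMap P K a ^ n = algebraMap P K a ^ (n - (i : ℕ)) * algebraMap P K a ^ (i : ℕ) := by
      rw [← pow_add, Nat.sub_add_cancel hi]
    simp only [map_mul, map_pow]
    rw [e]
    linear_combination algebraMap P K a ^ (n - (i : ℕ)) * hg
  | zero => exact ⟨0, 0, 0, by simp⟩
  | add y z _ _ hy hz =>
    obtain ⟨g₀, g₁, g₂, hg⟩ := hy
    obtain ⟨g₀', g₁', g₂', hg'⟩ := hz
    refine ⟨g₀ + g₀', g₁ + g₁', g₂ + g₂', ?_⟩
    simp only [map_add]
    linear_combination hg + hg'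
  | smul s y _ hy =>
    obtain ⟨g₀, g₁, g₂, hg⟩ := hy
    refine ⟨s * g₀, s * g₁, s * g₂, ?_⟩
    simp only [map_mul, Algebra.smul_def]
    linear_combination algebraMap P K s * hg

/-- (KRU) localized -/
theorem away (hK : S_KRU) [IsNoetherianRing P] [IsIntegrallyClosed P] (ha : a ≠ 0) (z : L)
    (hz : ∀ 𝔭 : Ideal P, 𝔭.IsPrime → 𝔭.height = 1 → a ∉ 𝔭 →
      ∃ s : P, s ∉ 𝔭 ∧ ∃ g : P, algebraMap P L s * z = algebraMap P L g) :
    ∃ (j : ℕ) (g : P), algebraMap P L (a ^ j) * z = algebraMap P L g := by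
  have hS : Submonoid.powers a ≤ nonZeroDivisors P := powers_le_nonZeroDivisors_of_noZeroDivisors ha
  let A := Localization.subalgebra L (Submonoid.powers a) hS
  have i1 : IsLocalization (Submonoid.powers a) A :=
    Localization.subalgebra.isLocalization_subalgebra L (Submonoid.powers a) hS
  have i2 : IsFractionRing A L := Localization.subalgebra.isFractionRing L (Submonoid.powers a) hS
  have i3 : IsNoetherianRing A := IsLocalization.isNoetherianRing (Submonoid.powers a) A inferInstance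
  have i4 : IsIntegrallyClosed A := isIntegrallyClosed_of_isLocalization A (Submonoid.powers a) hS
  obtain ⟨g, hg⟩ := hK A L z (by
    intro 𝔮 h𝔮 h1
    have hp : (𝔮.under P).IsPrime := inferInstance
    have h2 : (𝔮.under P).height = 1 := by
      rw [IsLocalization.height_under (Submonoid.powers a), h1]
    have h3 : a ∉ 𝔮.under P := by
      intro h4
      have h5 : IsUnit (algebraMap P A a) :=
        IsLocalization.map_units A (⟨a, Submonoid.mem_powers a⟩ : Submonoid.powers a)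
      exact h𝔮.ne_top (Ideal.eq_top_of_isUnit_mem _ h4 h5)
    obtain ⟨s, hs, g, hg⟩ := hz _ hp h2 h3
    exact ⟨algebraMap P A s, hs, algebraMap P A g, hg⟩)
  obtain ⟨p, ⟨s, j, hj⟩, rfl⟩ := IsLocalization.exists_mk'_eq (Submonoid.powers a) g
  refine ⟨j, p, ?_⟩
  have h6 := IsLocalization.mk'_spec A p (⟨s, j, hj⟩ : Submonoid.powers a)
  have h7 := congrArg (algebraMap A L) h6
  rw [map_mul] at h7
  simp only at hj
  rw [hg, hj, mul_comm]
  exact h7

theorem injK (h : Cub P L K a b c d x) : Function.Injective (algebraMap P K) := by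
  have _ := h.ne
  rw [IsScalarTower.algebraMap_eq P L K]
  exact (algebraMap L K).injective.comp (IsFractionRing.injective P L)

/-- step (1) -/
theorem pow_t (hK : S_KRU) [IsNoetherianRing P] [IsIntegrallyClosed P]
    (h : Cub P L K a b c d x) (n : ℕ) (hn : 2 ≤ n) (t : K)
    (ht : ∀ 𝔭 : Ideal P, 𝔭.IsPrime → 𝔭.height = 1 →
      ∃ s : P, s ∉ 𝔭 ∧ algebraMap P K s * t ∈ Mn P x n) :
    ∃ j : ℕ, algebraMap P K (a ^ j) * t ∈ Mn P x n := by
  obtain ⟨t₀, t₁, t₂, rfl⟩ := h.gen t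
  have hall : ∀ 𝔭 : Ideal P, 𝔭.IsPrime → 𝔭.height = 1 → a ∉ 𝔭 → ∃ s : P, s ∉ 𝔭 ∧
      ∃ g₀ g₁ g₂ : P, algebraMap P L s * t₀ = algebraMap P L g₀ ∧
        algebraMap P L s * t₁ = algebraMap P L g₁ ∧ algebraMap P L s * t₂ = algebraMap P L g₂ := by
    intro 𝔭 hp h1 ha
    obtain ⟨s, hs, hst⟩ := ht 𝔭 hp h1
    obtain ⟨g₀, g₁, g₂, hg⟩ := red h n hst
    refine ⟨a ^ n * s, fun hc => ?_, g₀, g₁, g₂, ?_⟩
    · rcases hp.mem_or_mem hc with h2 | h2
      · exact ha (hp.mem_of_pow_mem n h2)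
      · exact hs h2
    · have e := h.ind (algebraMap P L (a ^ n * s) * t₀ - algebraMap P L g₀)
        (algebraMap P L (a ^ n * s) * t₁ - algebraMap P L g₁)
        (algebraMap P L (a ^ n * s) * t₂ - algebraMap P L g₂) (by
          simp only [map_sub, map_mul, alg]
          simp only [map_pow]
          linear_combination hg)
      exact ⟨sub_eq_zero.1 e.1, sub_eq_zero.1 e.2.1, sub_eq_zero.1 e.2.2⟩
  obtain ⟨j₀, g₀, h₀⟩ := away hK h.ne t₀ fun 𝔭 hp h1 ha => by
    obtain ⟨s, hs, g₀, g₁, g₂, h0, h1, h2⟩ := hall 𝔭 hp h1 ha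
    exact ⟨s, hs, g₀, h0⟩
  obtain ⟨j₁, g₁, h₁⟩ := away hK h.ne t₁ fun 𝔭 hp h1 ha => by
    obtain ⟨s, hs, g₀, g₁, g₂, h0, h1, h2⟩ := hall 𝔭 hp h1 ha
    exact ⟨s, hs, g₁, h1⟩
  obtain ⟨j₂, g₂, h₂⟩ := away hK h.ne t₂ fun 𝔭 hp h1 ha => by
    obtain ⟨s, hs, g₀, g₁, g₂, h0, h1, h2⟩ := hall 𝔭 hp h1 ha
    exact ⟨s, hs, g₂, h2⟩
  refine ⟨j₀ + j₁ + j₂, ?_⟩
  have e₀ := congrArg (algebraMap L K) h₀
  have e₁ := congrArg (algebraMap L K) h₁
  have e₂ := congrArg (algebraMap L K) h₂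
  rw [map_mul, alg, alg] at e₀ e₁ e₂
  have e : algebraMap P K (a ^ (j₀ + j₁ + j₂)) * (algebraMap L K t₀ + algebraMap L K t₁ * x +
      algebraMap L K t₂ * x ^ 2) =
      algebraMap P K (a ^ (j₁ + j₂) * g₀) * x ^ 0 + algebraMap P K (a ^ (j₀ + j₂) * g₁) * x ^ 1 +
        algebraMap P K (a ^ (j₀ + j₁) * g₂) * x ^ 2 := by
    simp only [map_mul, pow_zero, mul_one, pow_one]
    rw [← e₀, ← e₁, ← e₂]
    simp only [map_pow, pow_add, map_mul]
    ring
  rw [e]
  exact Submodule.add_mem _ (Submodule.add_mem _ (mul_mem _ _ _ (pow_mem (by omega)))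
    (mul_mem _ _ _ (pow_mem (by omega)))) (mul_mem _ _ _ (pow_mem hn))

/-- step (2) -/
theorem pow_v (hK : S_KRU) [IsNoetherianRing P] [IsIntegrallyClosed P]
    (h : Cub P L K a b c d x) (n : ℕ) (hn : 2 ≤ n) (t : K)
    (ht : ∀ 𝔭 : Ideal P, 𝔭.IsPrime → 𝔭.height = 1 →
      ∃ s : P, s ∉ 𝔭 ∧ algebraMap P K s * t ∈ Mn P x n) (l : P) :
    ∃ j : ℕ, algebraMap P K ((a * l ^ 3 + b * l ^ 2 + c * l + d) ^ j) * t ∈ Mn P x n := by
  have h1 := cub_shift h l
  have hx := x_ne h1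
  have h2 := cub_inv h1
  obtain ⟨j, hj⟩ := pow_t hK h2 n hn (t * (x - algebraMap P K l)⁻¹ ^ n) (by
    intro 𝔭 hp h3
    obtain ⟨s, hs, hst⟩ := ht 𝔭 hp h3
    refine ⟨s, hs, ?_⟩
    rw [← mul_assoc]
    exact inv_mem hx (shift l hst))
  refine ⟨j, ?_⟩
  rw [← mul_assoc] at hj
  have h4 := inv_mem (inv_ne_zero hx) hj
  rw [inv_inv, mul_assoc, ← mul_pow, inv_mul_cancel₀ hx, one_pow, mul_one] at h4
  have h5 := shift (-l) h4
  rwa [map_neg, sub_neg_eq_add, sub_add_cancel] at h5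

/-- the cubic polynomial -/
noncomputable def FF (a b c d : P) : P[X] := C a * X ^ 3 + C b * X ^ 2 + C c * X + C d

theorem FF_c0 (a b c d : P) : (FF a b c d).coeff 0 = d := by simp [FF]
theorem FF_c1 (a b c d : P) : (FF a b c d).coeff 1 = c := by simp [FF, coeff_C]
theorem FF_c2 (a b c d : P) : (FF a b c d).coeff 2 = b := by simp [FF]
theorem FF_c3 (a b c d : P) : (FF a b c d).coeff 3 = a := by simp [FF]

theorem FF_deg (ha : a ≠ 0) : (FF a b c d).natDegree = 3 := natDegree_cubic ha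

theorem FF_ne (ha : a ≠ 0) : FF a b c d ≠ 0 := by
  intro h
  have := FF_deg (b := b) (c := c) (d := d) ha
  rw [h, natDegree_zero] at this
  exact absurd this (by norm_num)

theorem FF_aeval (h : Cub P L K a b c d x) : aeval x (FF a b c d) = 0 := by
  simp only [FF, map_add, map_mul, map_pow, aeval_C, aeval_X]
  exact h.rel

/-- McCoy -/
theorem mccoy {B : Type} [CommRing B] (I : Ideal B) (F H : B[X])
    (hI : ∀ u, (∀ k, F.coeff k * u ∈ I) → u ∈ I) (h : ∀ k, (F * H).coeff k ∈ I) (k : ℕ) :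
    H.coeff k ∈ I := by
  have h1 : H.map (Ideal.Quotient.mk I) * F.map (Ideal.Quotient.mk I) = 0 := by
    rw [← Polynomial.map_mul, mul_comm]
    ext k
    rw [coeff_map, coeff_zero]
    exact Ideal.Quotient.eq_zero_iff_mem.2 (h k)
  have h2 : F.map (Ideal.Quotient.mk I) ∈ nonZeroDivisors (B ⧸ I)[X] := by
    by_contra hc
    obtain ⟨r, hr, hr'⟩ := Polynomial.notMem_nonZeroDivisors_iff.1 hc
    obtain ⟨u, rfl⟩ := Ideal.Quotient.mk_surjective r
    apply hr
    rw [Ideal.Quotient.eq_zero_iff_mem]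
    refine hI u fun k => ?_
    have h3 := congrArg (fun p => coeff p k) hr'
    simp only [coeff_smul, coeff_map, coeff_zero, smul_eq_mul] at h3
    rw [← map_mul, Ideal.Quotient.eq_zero_iff_mem] at h3
    rwa [mul_comm]
  have h3 : H.map (Ideal.Quotient.mk I) = 0 :=
    (mul_right_mem_nonZeroDivisors_eq_zero_iff h2).1 h1
  have h4 := congrArg (fun p => coeff p k) h3
  simp only [coeff_map, coeff_zero] at h4
  exact Ideal.Quotient.eq_zero_iff_mem.1 h4

theorem span_mul {B : Type} [CommRing B] (I : Ideal B) (a b c d w u : B)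
    (hw : w ∈ Ideal.span {a, b, c, d}) (ha : a * u ∈ I) (hb : b * u ∈ I) (hc : c * u ∈ I)
    (hd : d * u ∈ I) : w * u ∈ I := by
  have h1 : Ideal.span {a, b, c, d} ≤ Submodule.comap (LinearMap.toSpanSingleton B B u) I := by
    rw [Ideal.span_le]
    rintro y (rfl | rfl | rfl | rfl)
    exacts [ha, hb, hc, hd]
  exact h1 hw

/-- division by the cubic -/
theorem div_lemma (h : Cub P L K a b c d x) : ∀ (N : ℕ) (D : P[X]), D.natDegree ≤ N →
    aeval x D = 0 → ∃ s : P, s ≠ 0 ∧ ∃ Q : P[X], C s * D = FF a b c d * Q := by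
  intro N
  induction N with
  | zero =>
    intro D hD h0
    refine ⟨1, one_ne_zero, 0, ?_⟩
    rw [eq_C_of_natDegree_le_zero hD, aeval_C] at h0
    rw [eq_C_of_natDegree_le_zero hD, injK h (by rw [h0, map_zero] : algebraMap P K (D.coeff 0) = algebraMap P K 0)]
    simp
  | succ N ih =>
    intro D hD h0
    by_cases hsm : D.natDegree < 3
    · refine ⟨1, one_ne_zero, 0, ?_⟩
      have h1 := h0
      rw [aeval_eq_sum_range' hsm] at h1
      simp only [Finset.sum_range_succ, Finset.sum_range_zero, zero_add, pow_zero, pow_one,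
        Algebra.smul_def, mul_one] at h1
      obtain ⟨e0, e1, e2⟩ := indP h _ _ _ h1
      have h2 : D = 0 := by
        ext k
        rw [coeff_zero]
        rcases k with _ | _ | _ | k
        · exact e0
        · exact e1
        · exact e2
        · exact coeff_eq_zero_of_natDegree_lt (by omega)
      rw [h2]; simp
    · rw [not_lt] at hsm
      have hD0 : D ≠ 0 := by
        rintro rfl
        simp at hsm
      set m := D.natDegree with hm
      set e := D.leadingCoeff with he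
      have he0 : e ≠ 0 := leadingCoeff_ne_zero.2 hD0
      set D' := C a * D - C e * X ^ (m - 3) * FF a b c d with hD'
      have hn1 : (C a * D).natDegree = m := natDegree_C_mul h.ne
      have hX : (C e * X ^ (m - 3) : P[X]) ≠ 0 := by
        rw [C_mul_X_pow_eq_monomial]
        exact fun hc => he0 (monomial_eq_zero_iff _ _ |>.1 hc)
      have hn2 : (C e * X ^ (m - 3) * FF a b c d).natDegree = m := by
        rw [natDegree_mul hX (FF_ne h.ne), FF_deg h.ne, natDegree_C_mul_X_pow _ _ he0]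
        omega
      have hne1 : C a * D ≠ 0 := mul_ne_zero (C_ne_zero.2 h.ne) hD0
      have hne2 : C e * X ^ (m - 3) * FF a b c d ≠ 0 := mul_ne_zero hX (FF_ne h.ne)
      have hlt : D'.degree < (C a * D).degree := by
        refine degree_sub_lt_left ?_ hne1 ?_
        · rw [degree_eq_natDegree hne1, degree_eq_natDegree hne2, hn1, hn2]
        · rw [leadingCoeff_mul, leadingCoeff_C, leadingCoeff_mul, leadingCoeff_C_mul_X_pow]
          have : (FF a b c d).leadingCoeff = a := by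
            rw [leadingCoeff, FF_deg h.ne, FF_c3]
          rw [this, mul_comm]
      have hle : D'.natDegree ≤ N := by
        by_cases hz : D' = 0
        · rw [hz, natDegree_zero]; exact Nat.zero_le _
        · rw [degree_eq_natDegree hz, degree_eq_natDegree hne1, hn1, Nat.cast_lt] at hlt
          omega
      have h0' : aeval x D' = 0 := by
        rw [hD', map_sub, map_mul, map_mul, h0, FF_aeval h, mul_zero, mul_zero, sub_zero]
      obtain ⟨s, hs, Q, hQ⟩ := ih D' hle h0'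
      refine ⟨s * a, mul_ne_zero hs h.ne, Q + C s * (C e * X ^ (m - 3)), ?_⟩
      rw [C_mul]
      linear_combination hQ + C s * hD'

/-- step (4) -/
theorem star (h : Cub P L K a b c d x) (c₀ c₁ c₂ : P) (m₀ : c₀ ∈ Ideal.span {a, b, c, d})
    (m₁ : c₁ ∈ Ideal.span {a, b, c, d}) (m₂ : c₂ ∈ Ideal.span {a, b, c, d}) (h0 : c₀ ≠ 0)
    (h1 : ∀ u, c₀ ∣ c₁ * u → c₀ ∣ u)
    (h2 : ∀ u, c₂ * u ∈ Ideal.span {c₀, c₁} → u ∈ Ideal.span {c₀, c₁}) (n : ℕ) (t : K)
    (ht₀ : algebraMap P K c₀ * t ∈ Mn P x n) (ht₁ : algebraMap P K c₁ * t ∈ Mn P x n) :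
    t ∈ Mn P x n := by
  obtain ⟨G₀, d₀, e₀⟩ := mem_Mn.1 ht₀
  obtain ⟨G₁, d₁, e₁⟩ := mem_Mn.1 ht₁
  set F := FF a b c d with hF
  set D := C c₁ * G₀ - C c₀ * G₁ with hD
  have hD0 : aeval x D = 0 := by
    rw [hD, map_sub, map_mul, map_mul, aeval_C, aeval_C, e₀, e₁]
    ring
  have hDn : D.natDegree ≤ n :=
    (natDegree_sub_le _ _).trans (max_le ((natDegree_C_mul_le _ _).trans d₀)
      ((natDegree_C_mul_le _ _).trans d₁))
  obtain ⟨s, hs, Q, hQ⟩ := div_lemma h _ D le_rfl hD0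
  have hk : ∀ u, (∀ k, F.coeff k * u ∈ Ideal.span {s}) → u ∈ Ideal.span {s} := by
    intro u hu
    have ha := hu 3
    have hb := hu 2
    have hc := hu 1
    have hd := hu 0
    rw [hF, FF_c3] at ha
    rw [hF, FF_c2] at hb
    rw [hF, FF_c1] at hc
    rw [hF, FF_c0] at hd
    have k₀ := span_mul _ a b c d c₀ u m₀ ha hb hc hd
    have k₁ := span_mul _ a b c d c₁ u m₁ ha hb hc hd
    rw [Ideal.mem_span_singleton] at k₀ k₁ ⊢
    obtain ⟨p₀, hp₀⟩ := k₀
    obtain ⟨p₁, hp₁⟩ := k₁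
    have h3 : c₁ * p₀ = c₀ * p₁ := by
      have : s * (c₁ * p₀) = s * (c₀ * p₁) := by linear_combination c₀ * hp₁ - c₁ * hp₀
      exact mul_left_cancel₀ hs this
    obtain ⟨p, hp⟩ := h1 p₀ ⟨p₁, h3⟩
    refine ⟨p, mul_left_cancel₀ h0 ?_⟩
    rw [hp₀, hp]; ring
  have hQc : ∀ k, s ∣ Q.coeff k := by
    intro k
    rw [← Ideal.mem_span_singleton]
    refine mccoy _ F Q hk (fun i => ?_) k
    rw [← hQ, coeff_C_mul]
    exact Ideal.mem_span_singleton.2 ⟨_, rfl⟩
  obtain ⟨H, hH⟩ := (C_dvd_iff_dvd_coeff s Q).2 hQc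
  have hDF : D = F * H := by
    have hs' : (C s : P[X]) ≠ 0 := C_ne_zero.2 hs
    refine mul_left_cancel₀ hs' ?_
    rw [hQ, hH]; ring
  have hHc : ∀ k, H.coeff k ∈ Ideal.span {c₀, c₁} := by
    refine fun k => mccoy _ F H ?_ (fun i => ?_) k
    · intro u hu
      have ha := hu 3
      have hb := hu 2
      have hc := hu 1
      have hd := hu 0
      rw [hF, FF_c3] at ha
      rw [hF, FF_c2] at hb
      rw [hF, FF_c1] at hc
      rw [hF, FF_c0] at hd
      exact h2 u (span_mul _ a b c d c₂ u m₂ ha hb hc hd)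
    · rw [← hDF, hD, coeff_sub, coeff_C_mul, coeff_C_mul, Ideal.mem_span_pair]
      exact ⟨-G₁.coeff i, G₀.coeff i, by ring⟩
  have hHc' : ∀ k, ∃ α β : P, α * c₀ + β * c₁ = H.coeff k := fun k => Ideal.mem_span_pair.1 (hHc k)
  choose α β hαβ using hHc'
  set H₀ : P[X] := ∑ k ∈ H.support, C (α k) * X ^ k with hH₀
  set H₁ : P[X] := ∑ k ∈ H.support, C (β k) * X ^ k with hH₁
  have hsum : H = C c₀ * H₀ + C c₁ * H₁ := by
    conv_lhs => rw [H.as_sum_support_C_mul_X_pow]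
    rw [hH₀, hH₁, Finset.mul_sum, Finset.mul_sum, ← Finset.sum_add_distrib]
    refine Finset.sum_congr rfl fun k _ => ?_
    rw [← hαβ k, C_add, C_mul, C_mul]
    ring
  have hdeg : (F * H₁).natDegree ≤ n := by
    by_cases hz : H = 0
    · rw [hH₁, hz, support_zero, Finset.sum_empty, mul_zero, natDegree_zero]
      exact Nat.zero_le _
    · have h3 : D.natDegree = 3 + H.natDegree := by
        rw [hDF, natDegree_mul (FF_ne h.ne) hz, FF_deg h.ne]
      have h4 : H₁.natDegree ≤ H.natDegree := by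
        refine natDegree_sum_le_of_forall_le _ _ fun k hk => ?_
        exact (natDegree_C_mul_X_pow_le _ _).trans (le_natDegree_of_mem_supp k hk)
      have h5 := natDegree_mul_le (p := F) (q := H₁)
      rw [hF, FF_deg h.ne] at h5
      rw [hF]
      omega
  have hdiv : ∀ k, c₀ ∣ (G₀ - F * H₁).coeff k := by
    intro k
    refine h1 _ ⟨(G₁ + F * H₀).coeff k, ?_⟩
    rw [← coeff_C_mul, ← coeff_C_mul]
    congr 1
    have h3 : C c₁ * G₀ - C c₀ * G₁ = F * (C c₀ * H₀ + C c₁ * H₁) := by rw [← hsum, ← hDF]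
    linear_combination h3
  obtain ⟨G, hG⟩ := (C_dvd_iff_dvd_coeff c₀ _).2 hdiv
  refine mem_Mn.2 ⟨G, ?_, ?_⟩
  · rw [← natDegree_C_mul (p := G) h0, ← hG]
    exact (natDegree_sub_le _ _).trans (max_le d₀ hdeg)
  · have hc0 : algebraMap P K c₀ ≠ 0 := by
      intro hc
      exact h0 (injK h (by rw [hc, map_zero]))
    refine mul_left_cancel₀ hc0 ?_
    rw [← e₀, ← aeval_C x c₀, ← map_mul, ← hG, map_sub, map_mul, FF_aeval h, zero_mul, sub_zero]

end cub

theorem double {P K : Type} [CommRing P] [Field K] [Algebra P K] (M : Submodule P K) (c₀ c₁ : P)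
    (hst : ∀ t : K, algebraMap P K c₀ * t ∈ M → algebraMap P K c₁ * t ∈ M → t ∈ M) :
    ∀ (j k : ℕ) (t : K), algebraMap P K (c₀ ^ j) * t ∈ M → algebraMap P K (c₁ ^ k) * t ∈ M → t ∈ M := by
  have hsm : ∀ (s : P) (z : K), z ∈ M → algebraMap P K s * z ∈ M := by
    intro s z hz
    rw [← Algebra.smul_def]
    exact M.smul_mem _ hz
  intro j
  induction j with
  | zero => intro k t h0 _; simpa using h0
  | succ j ih =>
    intro k t h0 h1
    have h2 : algebraMap P K c₀ * t ∈ M := by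
      refine ih k _ ?_ ?_
      · rw [pow_succ, map_mul, mul_assoc] at h0
        exact h0
      · have := hsm c₀ _ h1
        rwa [mul_left_comm] at this
    clear h0 ih
    induction k generalizing t with
    | zero => simpa using h1
    | succ k ihk =>
      have h3 : algebraMap P K c₁ * t ∈ M := by
        refine ihk _ ?_ ?_
        · rw [pow_succ, map_mul, mul_assoc] at h1
          exact h1
        · have := hsm c₁ _ h2
          rwa [mul_left_comm] at this
      exact hst t h2 h3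

theorem ref (hK : S_KRU) : S_REF := by
  intro P L K _ _ _ _ _ _ _ _ _ _ _ a b c d x n cc l hn ha hrel hind hgen hcc h0 h1 h2 hl t ht
  have h : Cub P L K a b c d x := ⟨ha, hrel, hind, hgen⟩
  change t ∈ Mn P x n
  change ∀ 𝔭 : Ideal P, 𝔭.IsPrime → 𝔭.height = 1 →
    ∃ s : P, s ∉ 𝔭 ∧ algebraMap P K s * t ∈ Mn P x n at ht
  let 𝔞 : Ideal P := Submodule.comap (LinearMap.toSpanSingleton P K t) (Mn P x n)
  have mem𝔞 : ∀ u : P, u ∈ 𝔞 ↔ algebraMap P K u * t ∈ Mn P x n := by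
    intro u
    rw [Submodule.mem_comap, LinearMap.toSpanSingleton_apply, Algebra.smul_def]
  have hrad : ∀ u : P, (∃ j : ℕ, algebraMap P K (u ^ j) * t ∈ Mn P x n) → u ∈ 𝔞.radical := by
    rintro u ⟨j, hj⟩
    exact ⟨j, (mem𝔞 _).2 hj⟩
  have ra : a ∈ 𝔞.radical := hrad a (pow_t hK h n hn t ht)
  have rv : ∀ i, a * l i ^ 3 + b * l i ^ 2 + c * l i + d ∈ 𝔞.radical :=
    fun i => hrad _ (pow_v hK h n hn t ht (l i))
  have hlin : ∀ i j, i ≠ j → b * (l i + l j) + c ∈ 𝔞.radical := by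
    intro i j hij
    obtain ⟨w, hw⟩ := hl i j hij
    have h3 : b * (l i + l j) + c = ((w⁻¹ : Pˣ) : P) * ((a * l i ^ 3 + b * l i ^ 2 + c * l i + d) -
        (a * l j ^ 3 + b * l j ^ 2 + c * l j + d)) - (l i ^ 2 + l i * l j + l j ^ 2) * a := by
      have h4 : ((w⁻¹ : Pˣ) : P) * (l i - l j) = 1 := by rw [← hw, Units.inv_mul]
      linear_combination (-(b * (l i + l j) + c) - a * (l i ^ 2 + l i * l j + l j ^ 2)) * h4
    rw [h3]
    exact Ideal.sub_mem _ (Ideal.mul_mem_left _ _ (Ideal.sub_mem _ (rv i) (rv j)))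
      (Ideal.mul_mem_left _ _ ra)
  have rb : b ∈ 𝔞.radical := by
    obtain ⟨w, hw⟩ := hl 1 2 (by decide)
    have h4 : ((w⁻¹ : Pˣ) : P) * (l 1 - l 2) = 1 := by rw [← hw, Units.inv_mul]
    have h5 : b = ((w⁻¹ : Pˣ) : P) * ((b * (l 0 + l 1) + c) - (b * (l 0 + l 2) + c)) := by
      linear_combination (-b) * h4
    rw [h5]
    exact Ideal.mul_mem_left _ _ (Ideal.sub_mem _ (hlin 0 1 (by decide)) (hlin 0 2 (by decide)))
  have rc : c ∈ 𝔞.radical := by
    have h5 : c = (b * (l 0 + l 1) + c) - (l 0 + l 1) * b := by ring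
    rw [h5]
    exact Ideal.sub_mem _ (hlin 0 1 (by decide)) (Ideal.mul_mem_left _ _ rb)
  have rd : d ∈ 𝔞.radical := by
    have h5 : d = (a * l 0 ^ 3 + b * l 0 ^ 2 + c * l 0 + d) - (l 0 ^ 3 * a + l 0 ^ 2 * b + l 0 * c) := by
      ring
    rw [h5]
    exact Ideal.sub_mem _ (rv 0) (Ideal.add_mem _ (Ideal.add_mem _ (Ideal.mul_mem_left _ _ ra)
      (Ideal.mul_mem_left _ _ rb)) (Ideal.mul_mem_left _ _ rc))
  have hall : Ideal.span {a, b, c, d} ≤ 𝔞.radical := by
    rw [Ideal.span_le]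
    rintro y (rfl | rfl | rfl | rfl)
    exacts [ra, rb, rc, rd]
  obtain ⟨j, hj⟩ := hall (hcc 0)
  obtain ⟨k, hk⟩ := hall (hcc 1)
  exact double (Mn P x n) (cc 0) (cc 1)
    (fun u hu₀ hu₁ => star h (cc 0) (cc 1) (cc 2) (hcc 0) (hcc 1) (hcc 2) h0 h1 h2 n u hu₀ hu₁)
    j k t ((mem𝔞 _).1 hj) ((mem𝔞 _).1 hk)

end Pool.Agent.H127.FT867REF
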