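import Pool.Agent.H252.MD.Iface
import Pool.Graph.R_pool_sql_team_seeded_620a6dc7.H107_ZS.TSC1
import Pool.Graph.R_pool_sql_team_seeded_620a6dc7.H107_ZS.TTS

set_option autoImplicit false

namespace Pool.Agent.H127.MDTRC

open Filter Topology
open Pool.Agent.H107ZS Pool.Agent.H327R4.Pure Pool.Agent.H252.MD
open scoped CStarAlgebra ComplexOrder

section

variable {B : Type} [NonUnitalCStarAlgebra B] [PartialOrder B] [StarOrderedRing B]

/-- powers as functional calculus -/
theorem pow_eq_cfcn {C : Type} [CStarAlgebra C] [PartialOrder C] [StarOrderedRing C] (y : C)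
    (hy : IsSelfAdjoint y) (k : ℕ) : y ^ (k + 1) = cfcₙ (fun x : ℝ => x ^ (k + 1)) y := by
  induction k with
  | zero =>
    simp only [zero_add, pow_one]
    exact (cfcₙ_id' ℝ y).symm
  | succ k ih =>
    rw [pow_succ, ih]
    have h1 : (fun x : ℝ => x ^ (k + 1 + 1)) = fun x => x ^ (k + 1) * x := by
      funext x; ring
    rw [h1, cfcₙ_mul (fun x : ℝ => x ^ (k + 1)) (fun x : ℝ => x) y
      (by fun_prop) (by simp) (by fun_prop) (by simp), cfcₙ_id' ℝ y]

theorem rt_pow {C : Type} [CStarAlgebra C] [PartialOrder C] [StarOrderedRing C] (y : C)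
    (hy : 0 ≤ y) (k : ℕ) : rt k (y ^ (k + 1)) = y := by
  have hsa : IsSelfAdjoint y := IsSelfAdjoint.of_nonneg hy
  have hk : (0 : ℝ) < (k : ℝ) + 1 := by positivity
  unfold rt
  rw [pow_eq_cfcn y hsa k, ← cfcₙ_comp' (fun x : ℝ => x ^ (1 / ((k : ℝ) + 1)))
    (fun x : ℝ => x ^ (k + 1)) y ?_ ?_ (by fun_prop) (by simp) hsa]
  · have h1 : cfcₙ (fun x : ℝ => (x ^ (k + 1)) ^ (1 / ((k : ℝ) + 1))) y = cfcₙ (fun x : ℝ => x) y := by
      apply cfcₙ_congr
      intro x hx
      have hx0 : 0 ≤ x := quasispectrum_nonneg_of_nonneg y hy x hx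
      show (x ^ (k + 1)) ^ (1 / ((k : ℝ) + 1)) = x
      rw [← Real.rpow_natCast, ← Real.rpow_mul hx0]
      have : ((k + 1 : ℕ) : ℝ) * (1 / ((k : ℝ) + 1)) = 1 := by
        push_cast; field_simp
      rw [this, Real.rpow_one]
    rw [h1, cfcₙ_id' ℝ y]
  · exact (Real.continuous_rpow_const (by positivity)).continuousOn
  · exact Real.zero_rpow (by positivity)

end

section

variable {A : Type} [CStarAlgebra A]

/-- the quasitrace given by a trace -/
noncomputable def qt (T : Tr A) (hT : T.f 1 = 1) : QT A where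
  val n M := ∑ i, T.f (M i i)
  isQuasitrace n :=
    { nonneg := fun x => by
        have h1 : ∑ i, T.f ((star x * x) i i) = ∑ i, ∑ k, T.f (star (x k i) * x k i) := by
          refine Finset.sum_congr rfl fun i _ => ?_
          rw [Matrix.mul_apply, map_sum]
          rfl
        rw [h1]
        constructor
        · rw [Complex.re_sum]
          refine Finset.sum_nonneg fun i _ => ?_
          rw [Complex.re_sum]
          exact Finset.sum_nonneg fun k _ => (T.pos _).1
        · rw [Complex.im_sum]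
          refine Finset.sum_eq_zero fun i _ => ?_
          rw [Complex.im_sum]
          exact Finset.sum_eq_zero fun k _ => (T.pos _).2
      comm := fun x => by
        have h1 : ∑ i, T.f ((star x * x) i i) = ∑ i, ∑ k, T.f (star (x k i) * x k i) := by
          refine Finset.sum_congr rfl fun i _ => ?_
          rw [Matrix.mul_apply, map_sum]
          rfl
        have h2 : ∑ i, T.f ((x * star x) i i) = ∑ i, ∑ k, T.f (x i k * star (x i k)) := by
          refine Finset.sum_congr rfl fun i _ => ?_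
          rw [Matrix.mul_apply, map_sum]
          rfl
        rw [h1, h2, Finset.sum_comm]
        refine Finset.sum_congr rfl fun i _ => Finset.sum_congr rfl fun k _ => T.tr _ _
      add_I := fun a b _ _ => by
        simp only [Matrix.add_apply, Matrix.smul_apply, map_add, map_smul, smul_eq_mul,
          Finset.sum_add_distrib, Finset.mul_sum]
      linear := fun c x y _ _ _ _ => by
        simp only [Matrix.add_apply, Matrix.smul_apply, map_add, map_smul, smul_eq_mul,
          Finset.sum_add_distrib, Finset.mul_sum] }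
  map_corner n a := by
    rw [Fin.sum_univ_castSucc]
    have h1 : ∀ i : Fin n, corner a i.castSucc i.castSucc = a i i := by
      intro i
      have : ((i.castSucc : Fin (n + 1)) : ℕ) < n ∧ ((i.castSucc : Fin (n + 1)) : ℕ) < n := by
        simp
      rw [corner, dif_pos this]
      rfl
    have h2 : corner a (Fin.last n) (Fin.last n) = 0 := by
      have : ¬ (((Fin.last n : Fin (n + 1)) : ℕ) < n ∧ ((Fin.last n : Fin (n + 1)) : ℕ) < n) := by
        simp
      rw [corner, dif_neg this]
    rw [h2, map_zero, add_zero]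
    exact Finset.sum_congr rfl fun i _ => by rw [h1]
  map_one := by
    simp [hT]

end

section

variable {A : Type} [CStarAlgebra A] [PartialOrder A] [StarOrderedRing A]

theorem pos_of {n : ℕ} {a : Matrix (Fin n) (Fin n) A} (ha : IsPos a) :
    0 ≤ (CStarMatrix.ofMatrix a : MM n A) := by
  obtain ⟨x, rfl⟩ := ha
  have : (CStarMatrix.ofMatrix (star x * x) : MM n A) =
      star (CStarMatrix.ofMatrix x : MM n A) * (CStarMatrix.ofMatrix x : MM n A) := rfl
  rw [this]
  exact star_mul_self_nonneg _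

theorem ofMatrix_pow {n : ℕ} (y : Matrix (Fin n) (Fin n) A) (m : ℕ) :
    (CStarMatrix.ofMatrix (y ^ m) : MM n A) = (CStarMatrix.ofMatrix y : MM n A) ^ m := by
  induction m with
  | zero => rfl
  | succ m ih =>
    rw [pow_succ, pow_succ, ← ih]
    rfl

theorem isRank_of {n : ℕ} (T : Tr A) (hT : T.f 1 = 1) {a : Matrix (Fin n) (Fin n) A} {d : ℝ}
    (h : HasDim ((qt T hT).val n) a d) :
    IsRank (trM T (Fin n)) (CStarMatrix.ofMatrix a : MM n A) d := by
  obtain ⟨r, hr, hlim⟩ := h
  refine hlim.congr fun m => ?_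
  have h1 : rt m (CStarMatrix.ofMatrix a : MM n A) = (CStarMatrix.ofMatrix (r m) : MM n A) := by
    rw [← (hr m).2, ofMatrix_pow]
    exact rt_pow _ (pos_of (hr m).1) m
  rw [h1]
  rfl

end

theorem s_TRC : Pool.Agent.H252.MD.S_TRC := by
  intro X _ _ _ _ A _ _ _ ι u E h n a b r ha hb hrank
  refine ⟨pos_of ha, pos_of hb, ?_⟩
  intro E' hE' Λ hΛ ε hε
  obtain ⟨T, hT1, hT⟩ := t_TS Zm X A ι u E h Λ hΛ
  obtain ⟨d, d', hd, hd', hlt⟩ := hrank (qt T hT1)
  have hd := isRank_of T hT1 hd
  have hd' := isRank_of T hT1 hd'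
  have hF : ∀ M : MM n A, ((trM T (Fin n)).f M).re = Λ (Ft E' M) := by
    intro M
    rw [trM_apply, Complex.re_sum]
    have h1 : Ft E' M = ∑ k, (⟨fun x => (E (M k k) x).re, by fun_prop⟩ : C(X, ℝ)) := by
      ext x
      rw [ContinuousMap.sum_apply]
      change (∑ k, E' k k M x).re = ∑ k, (E (M k k) x).re
      rw [Complex.re_sum]
      simp only [hE']
    rw [h1, map_sum]
    exact Finset.sum_congr rfl fun k _ => hT (M k k) _ fun x => rfl
  obtain ⟨ra1, ra2, ra3, ra4⟩ := rk' (MM n A) (trM T (Fin n)) _ (pos_of ha)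
  obtain ⟨rb1, rb2, rb3, rb4⟩ := rk' (MM n A) (trM T (Fin n)) _ (pos_of hb)
  have e1 : d = rk (trM T (Fin n)) (CStarMatrix.ofMatrix a : MM n A) := tendsto_nhds_unique hd ra3
  have e2 : d' = rk (trM T (Fin n)) (CStarMatrix.ofMatrix b : MM n A) := tendsto_nhds_unique hd' rb3
  obtain ⟨δ, hδ, h2⟩ := rb2 (d' - (d + r)) (sub_pos.2 hlt)
  refine ⟨δ, hδ, ?_⟩
  rw [← hF, ← hF]
  have h3 := ra1 ε hε
  linarith

end Pool.Agent.H127.MDTRC
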