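import Pool.Agent.H465.OC.StmA

/-!
# Existence of the represented function (project OC of helper465)
-/

set_option autoImplicit false

namespace Pool.Agent.H127.OCRelEx

open Polynomial Filter Topology
open Pool.Agent.H465.OC

/-- limits in the `p`-adic integers -/
theorem lim {p : ℕ} [Fact p.Prime] (a : ℕ → ℤ_[p])
    (ha : ∀ m n : ℕ, m ≤ n → (p : ℤ_[p]) ^ m ∣ a m - a n) :
    ∃ L : ℤ_[p], ∀ m : ℕ, (p : ℤ_[p]) ^ m ∣ a m - L := by
  have hn : ∀ m n : ℕ, m ≤ n → ‖a m - a n‖ ≤ (p : ℝ) ^ (-(m : ℤ)) := by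
    intro m n hmn
    rw [PadicInt.norm_le_pow_iff_mem_span_pow, Ideal.mem_span_singleton]
    exact ha m n hmn
  have hC : CauchySeq a := by
    rw [Metric.cauchySeq_iff']
    intro ε hε
    obtain ⟨N, hN⟩ := PadicInt.exists_pow_neg_lt p hε
    refine ⟨N, fun n hNn => ?_⟩
    rw [dist_comm, dist_eq_norm]
    exact (hn N n hNn).trans_lt hN
  obtain ⟨L, hL⟩ := cauchySeq_tendsto_of_complete hC
  refine ⟨L, fun m => ?_⟩
  rw [← Ideal.mem_span_singleton, ← PadicInt.norm_le_pow_iff_mem_span_pow]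
  have h1 : Tendsto (fun n => ‖a m - a n‖) atTop (𝓝 ‖a m - L‖) :=
    (tendsto_const_nhds.sub hL).norm
  exact le_of_tendsto h1 (eventually_atTop.2 ⟨m, fun n hmn => hn m n hmn⟩)

/-- units in the disc -/
theorem unit_disc {p : ℕ} [Fact p.Prime] {c x : ℤ_[p]} {h : ℤ_[p][X]} (hu : IsUnit (h.eval c))
    (hx : (p : ℤ_[p]) ∣ x - c) : IsUnit (h.eval x) := by
  by_contra hc
  rw [PadicInt.not_isUnit_iff, PadicInt.norm_lt_one_iff_dvd] at hc
  have h1 : (p : ℤ_[p]) ∣ h.eval x - h.eval c := hx.trans (Polynomial.sub_dvd_eval_sub x c h)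
  have h2 : (p : ℤ_[p]) ∣ h.eval c := by
    have := dvd_sub hc h1
    rwa [sub_sub_cancel] at this
  rw [← PadicInt.norm_lt_one_iff_dvd, ← PadicInt.not_isUnit_iff] at h2
  exact h2 hu

theorem main : RelEx := by
  intro p _ B _ _ j c hinj s hs
  choose g h hu hd using hs
  have hpoly : ∀ M M' : ℕ, M ≤ M' → (p : ℤ_[p][X]) ^ M ∣ h M' * g M - h M * g M' := by
    intro M M' hM
    apply hinj
    rw [map_sub, map_mul, map_mul]
    have h1 : (p : B) ^ M ∣ aeval j (h M') * s - aeval j (g M') :=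
      (pow_dvd_pow _ hM).trans (hd M')
    have h2 := dvd_sub (h1.mul_left (aeval j (h M))) ((hd M).mul_left (aeval j (h M')))
    have e : aeval j (h M) * (aeval j (h M') * s - aeval j (g M')) -
        aeval j (h M') * (aeval j (h M) * s - aeval j (g M)) =
        aeval j (h M') * aeval j (g M) - aeval j (h M) * aeval j (g M') := by ring
    rwa [e] at h2
  have hex : ∀ x : ℤ_[p], ∃ y : ℤ_[p], (p : ℤ_[p]) ∣ x - c →
      ∀ M : ℕ, (p : ℤ_[p]) ^ M ∣ (h M).eval x * y - (g M).eval x := by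
    intro x
    by_cases hx : (p : ℤ_[p]) ∣ x - c
    · have hux : ∀ M, IsUnit ((h M).eval x) := fun M => unit_disc (hu M) hx
      have ha : ∀ M, ∃ a : ℤ_[p], (h M).eval x * a = (g M).eval x := by
        intro M
        obtain ⟨u, hu⟩ := hux M
        exact ⟨(u⁻¹ : (ℤ_[p])ˣ) * (g M).eval x, by rw [← hu, Units.mul_inv_cancel_left]⟩
      choose a ha using ha
      obtain ⟨L, hL⟩ := lim a (by
        intro m n hmn
        have h1 : (p : ℤ_[p]) ^ m ∣ (h n * g m - h m * g n).eval x := by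
          obtain ⟨q, hq⟩ := hpoly m n hmn
          rw [hq, eval_mul, eval_pow, eval_natCast]
          exact dvd_mul_right _ _
        have h2 : (h n * g m - h m * g n).eval x =
            ((h n).eval x * (h m).eval x) * (a m - a n) := by
          rw [eval_sub, eval_mul, eval_mul, ← ha m, ← ha n]
          ring
        rw [h2] at h1
        exact (IsUnit.dvd_mul_left ((hux n).mul (hux m))).1 h1)
      refine ⟨L, fun _ M => ?_⟩
      have e : (h M).eval x * L - (g M).eval x = (h M).eval x * -(a M - L) := by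
        rw [← ha M]
        ring
      rw [e]
      exact ((dvd_neg.2 (hL M))).mul_left _
    · exact ⟨0, fun h0 => absurd h0 hx⟩
  choose F hF using hex
  exact ⟨F, fun M => ⟨g M, h M, hu M, hd M, fun x hx => hF x hx M⟩⟩

end Pool.Agent.H127.OCRelEx
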