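import Pool.Agent.H812.Tm.Spec3

set_option autoImplicit false

open Filter Topology Set
open scoped ContDiff

namespace Pool.Agent.H127.Tm

open Pool.Agent.H812.Tm

/-- uniqueness of leaves -/
theorem tGUniq : GUniq := by
  intro S p0 X hX hX0 ψ w0 hψ hψS hψ0 hψX γ γ' I t0 hI ht0 hγ0 hγS hγ'c hγd hγX
  obtain ⟨g, hg, hXg⟩ := hX
  have hp0S : p0 ∈ S := hψ0 ▸ hψS w0
  have hXg0 : X p0 = g p0 := hXg.self_of_nhdsWithin hp0S
  have hg0 : g p0 ≠ 0 := hXg0 ▸ hX0
  obtain ⟨ℓ, hℓ⟩ := SeparatingDual.exists_eq_one (R := ℝ) hg0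
  -- the normalised field
  set G : ℝ × ℝ × ℝ → ℝ × ℝ × ℝ := fun q => (ℓ (g q))⁻¹ • g q with hG
  have hGc : ContDiffAt ℝ 1 G p0 := by
    have h1 : ContDiffAt ℝ 1 (fun q => ℓ (g q)) p0 := ℓ.contDiff.contDiffAt.comp p0 hg
    exact (h1.inv (by rw [hℓ]; norm_num)).smul hg
  obtain ⟨K, U, hU, hLip⟩ := hGc.exists_lipschitzOnWith
  have hℓg : ∀ᶠ q in 𝓝 p0, ℓ (g q) ≠ 0 := by
    have : ContinuousAt (fun q => ℓ (g q)) p0 := ℓ.continuous.continuousAt.comp hg.continuousAt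
    exact this.eventually_ne (by rw [hℓ]; norm_num)
  -- the base curve
  set c : ℝ → ℝ × ℝ × ℝ := fun s => ψ (s, w0.2) with hc
  have hcC : ContDiff ℝ 1 c := hψ.comp (contDiff_id.prodMk contDiff_const)
  have hcd : ∀ s, HasDerivAt c (fderiv ℝ ψ (s, w0.2) (1, 0)) s := by
    intro s
    have h1 : HasDerivAt (fun s : ℝ => (s, w0.2)) ((1 : ℝ), (0 : ℝ)) s :=
      (hasDerivAt_id s).prodMk (hasDerivAt_const s w0.2)
    exact ((hψ.differentiable one_ne_zero (s, w0.2)).hasFDerivAt).comp_hasDerivAt s h1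
  have hc0 : c w0.1 = p0 := hψ0
  have hct : Tendsto c (𝓝 w0.1) (𝓝 p0) := by
    have := hcC.continuous.tendsto w0.1
    rwa [hc0] at this
  have hck : ∀ᶠ s in 𝓝 w0.1, ∃ k : ℝ, k ≠ 0 ∧ fderiv ℝ ψ (s, w0.2) (1, 0) = k • g (c s) := by
    have h1 : Tendsto (fun s : ℝ => (s, w0.2)) (𝓝 w0.1) (𝓝 w0) := by
      have : Continuous (fun s : ℝ => (s, w0.2)) := by fun_prop
      exact this.tendsto' _ _ rfl
    have h2 : ∀ᶠ s in 𝓝 w0.1, X (c s) = g (c s) := by
      have h3 : Tendsto c (𝓝 w0.1) (𝓝[S] p0) :=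
        tendsto_nhdsWithin_iff.2 ⟨hct, Eventually.of_forall fun s => hψS _⟩
      exact h3.eventually hXg
    filter_upwards [h1.eventually hψX, h2] with s h4 h5
    obtain ⟨k, hk, hk'⟩ := h4
    refine ⟨k, hk, ?_⟩
    rw [hk', ← h5]
  -- the first coordinate along the base curve
  set h : ℝ → ℝ := fun s => ℓ (c s) with hh
  set h' : ℝ → ℝ := fun s => ℓ (fderiv ℝ ψ (s, w0.2) (1, 0)) with hh'
  have hhd : ∀ s, HasDerivAt h (h' s) s := fun s => ℓ.hasFDerivAt.comp_hasDerivAt s (hcd s)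
  have hh'0 : ∀ᶠ s in 𝓝 w0.1, h' s ≠ 0 ∧ (h' s)⁻¹ • fderiv ℝ ψ (s, w0.2) (1, 0) = G (c s) := by
    filter_upwards [hck, hct.eventually hℓg] with s h1 h2
    obtain ⟨k, hk, hk'⟩ := h1
    have h3 : h' s = k * ℓ (g (c s)) := by
      simp only [hh', hk', map_smul, smul_eq_mul]
    refine ⟨by rw [h3]; exact mul_ne_zero hk h2, ?_⟩
    rw [h3, hk', smul_smul, hG]
    congr 1
    field_simp
  have hst : HasStrictDerivAt h (h' w0.1) w0.1 := by
    have h1 : ContDiff ℝ 1 h := ℓ.contDiff.comp hcC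
    have h2 := h1.contDiffAt.hasStrictDerivAt (x := w0.1) one_ne_zero
    rwa [(hhd w0.1).deriv] at h2
  have h'0 : h' w0.1 ≠ 0 := hh'0.self_of_nhds.1
  set e := (hst.hasStrictFDerivAt_equiv h'0).toOpenPartialHomeomorph h with he
  have hecoe : (e : ℝ → ℝ) = h := rfl
  have hes : w0.1 ∈ e.source :=
    (hst.hasStrictFDerivAt_equiv h'0).mem_toOpenPartialHomeomorph_source
  have het : h w0.1 ∈ e.target :=
    (hst.hasStrictFDerivAt_equiv h'0).image_mem_toOpenPartialHomeomorph_target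
  have hσ0 : e.symm (h w0.1) = w0.1 := e.left_inv hes
  have hσc : ContinuousAt e.symm (h w0.1) := e.symm.continuousAt het
  have hσt : Tendsto e.symm (𝓝 (h w0.1)) (𝓝 w0.1) := by
    have := hσc.tendsto
    rwa [hσ0] at this
  -- the reparametrised base curve
  have hC : ∀ᶠ u in 𝓝 (h w0.1), HasDerivAt (fun u => c (e.symm u)) (G (c (e.symm u))) u := by
    filter_upwards [e.open_target.mem_nhds het, hσt.eventually hh'0] with u hu h1
    have h2 : HasDerivAt e.symm (h' (e.symm u))⁻¹ u :=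
      e.hasDerivAt_symm hu h1.1 (hhd _)
    have h3 := (hcd (e.symm u)).scomp u h2
    rw [h1.2] at h3
    exact h3
  have hu0 : h w0.1 = ℓ p0 := by simp only [hh, hc0]
  rw [hu0] at hC hσt
  -- the comparison curve
  have hγt : Tendsto γ (𝓝[I] t0) (𝓝 p0) := by
    have := (hγd t0 ht0).continuousWithinAt.tendsto
    rwa [hγ0] at this
  have hut : Tendsto (fun t => ℓ (γ t)) (𝓝[I] t0) (𝓝 (ℓ p0)) := (ℓ.continuous.tendsto p0).comp hγt
  have hyt : Tendsto (fun t => c (e.symm (ℓ (γ t)))) (𝓝[I] t0) (𝓝 p0) :=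
    hct.comp (hσt.comp hut)
  have hγtS : Tendsto γ (𝓝[I] t0) (𝓝[S] p0) :=
    tendsto_nhdsWithin_iff.2 ⟨hγt, by
      filter_upwards [self_mem_nhdsWithin] with t ht using hγS t ht⟩
  have hbd : ∀ᶠ t in 𝓝[I] t0, |ℓ (γ' t)| < |ℓ (γ' t0)| + 1 := by
    have h1 : Tendsto (fun t => |ℓ (γ' t)|) (𝓝[I] t0) (𝓝 |ℓ (γ' t0)|) :=
      (continuous_abs.tendsto _).comp ((ℓ.continuous.tendsto _).comp (hγ'c t0 ht0))
    exact h1.eventually_lt_const (lt_add_one _)
  have key : ∀ᶠ t in 𝓝[I] t0, (|ℓ (γ' t)| < |ℓ (γ' t0)| + 1) ∧ γ t ∈ U ∧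
      c (e.symm (ℓ (γ t))) ∈ U ∧ γ' t = ℓ (γ' t) • G (γ t) ∧
      HasDerivAt (fun u => c (e.symm u)) (G (c (e.symm (ℓ (γ t))))) (ℓ (γ t)) := by
    filter_upwards [hbd, hγt.eventually hU, hyt.eventually hU, hut.eventually hC, hγX,
      hγtS.eventually hXg, hγt.eventually hℓg] with t h1 h2 h3 h4 h5 h6 h7
    refine ⟨h1, h2, h3, ?_, h4⟩
    obtain ⟨l, hl⟩ := h5
    rw [hl, h6, hG, map_smul, smul_eq_mul, smul_smul]
    congr 1
    field_simp
  obtain ⟨ε, hε, hball⟩ := Metric.mem_nhdsWithin_iff.1 key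
  have hcd2 : ∀ t ∈ I, |t - t0| < ε →
      HasDerivWithinAt (fun t => c (e.symm (ℓ (γ t))))
        (ℓ (γ' t) • G (c (e.symm (ℓ (γ t))))) I t := by
    intro t ht htε
    have h1 := (hball ⟨by rwa [Metric.mem_ball, Real.dist_eq], ht⟩).2.2.2.2
    have h2 : HasDerivWithinAt (fun t => ℓ (γ t)) (ℓ (γ' t)) I t :=
      ℓ.hasFDerivAt.comp_hasDerivWithinAt t (hγd t ht)
    exact h1.scomp_hasDerivWithinAt t h2
  have hlip : ∀ t ∈ I, |t - t0| < ε →
      LipschitzOnWith (Real.toNNReal (|ℓ (γ' t0)| + 1) * K) (fun z => ℓ (γ' t) • G z) U := by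
    intro t ht htε
    have h1 := (hball ⟨by rwa [Metric.mem_ball, Real.dist_eq], ht⟩).1
    refine LipschitzOnWith.of_dist_le_mul fun x hx y hy => ?_
    rw [dist_smul₀, Real.norm_eq_abs]
    have h2 := hLip.dist_le_mul x hx y hy
    calc |ℓ (γ' t)| * dist (G x) (G y) ≤ (|ℓ (γ' t0)| + 1) * (K * dist x y) := by
          apply mul_le_mul h1.le h2 dist_nonneg (by positivity)
      _ = _ := by
          rw [NNReal.coe_mul, Real.coe_toNNReal _ (by positivity)]
          ring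
  have hstart : γ t0 = c (e.symm (ℓ (γ t0))) := by
    rw [hγ0, ← hu0, hσ0, hc0]
  refine ⟨ε, hε, fun s hs hsε => ⟨(e.symm (ℓ (γ s)), w0.2), ?_, rfl⟩⟩
  show c (e.symm (ℓ (γ s))) = γ s
  rcases le_total t0 s with hts | hts
  · have hsub : Icc t0 s ⊆ I := hI.out ht0 hs
    have hab : ∀ t ∈ Icc t0 s, |t - t0| < ε := by
      intro t ht
      rw [abs_of_nonneg (by linarith [ht.1])]
      rw [abs_of_nonneg (by linarith)] at hsε
      linarith [ht.2]
    have hB : ∀ t ∈ Icc t0 s, t ∈ Metric.ball t0 ε ∩ I := fun t ht =>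
      ⟨by rw [Metric.mem_ball, Real.dist_eq]; exact hab t ht, hsub ht⟩
    have hmono : ∀ t ∈ Ico t0 s, I ∈ 𝓝[Ici t] t := fun t ht =>
      mem_of_superset (Icc_mem_nhdsGE ht.2) ((Icc_subset_Icc_left ht.1).trans hsub)
    have := ODE_solution_unique_of_mem_Icc_right (v := fun t z => ℓ (γ' t) • G z)
      (s := fun _ => U) (f := γ) (g := fun t => c (e.symm (ℓ (γ t)))) (a := t0) (b := s)
      (fun t ht => hlip t (hsub (Ico_subset_Icc_self ht)) (hab t (Ico_subset_Icc_self ht)))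
      (fun t ht => ((hγd t (hsub ht)).continuousWithinAt).mono hsub)
      (fun t ht => by
        have h1 := (hball (hB t (Ico_subset_Icc_self ht))).2.2.2.1
        show HasDerivWithinAt γ (ℓ (γ' t) • G (γ t)) _ t
        rw [← h1]
        exact (hγd t (hsub (Ico_subset_Icc_self ht))).mono_of_mem_nhdsWithin (hmono t ht))
      (fun t ht => (hball (hB t (Ico_subset_Icc_self ht))).2.1)
      (fun t ht => ((hcd2 t (hsub ht) (hab t ht)).continuousWithinAt).mono hsub)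
      (fun t ht => (hcd2 t (hsub (Ico_subset_Icc_self ht))
        (hab t (Ico_subset_Icc_self ht))).mono_of_mem_nhdsWithin (hmono t ht))
      (fun t ht => (hball (hB t (Ico_subset_Icc_self ht))).2.2.1)
      hstart
    exact (this ⟨hts, le_rfl⟩).symm
  · have hsub : Icc s t0 ⊆ I := hI.out hs ht0
    have hab : ∀ t ∈ Icc s t0, |t - t0| < ε := by
      intro t ht
      rw [abs_of_nonpos (by linarith [ht.2])]
      rw [abs_of_nonpos (by linarith)] at hsε
      linarith [ht.1]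
    have hB : ∀ t ∈ Icc s t0, t ∈ Metric.ball t0 ε ∩ I := fun t ht =>
      ⟨by rw [Metric.mem_ball, Real.dist_eq]; exact hab t ht, hsub ht⟩
    have hmono : ∀ t ∈ Ioc s t0, I ∈ 𝓝[Iic t] t := fun t ht =>
      mem_of_superset (Icc_mem_nhdsLE ht.1) ((Icc_subset_Icc_right ht.2).trans hsub)
    have := ODE_solution_unique_of_mem_Icc_left (v := fun t z => ℓ (γ' t) • G z)
      (s := fun _ => U) (f := γ) (g := fun t => c (e.symm (ℓ (γ t)))) (a := s) (b := t0)
      (fun t ht => hlip t (hsub (Ioc_subset_Icc_self ht)) (hab t (Ioc_subset_Icc_self ht)))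
      (fun t ht => ((hγd t (hsub ht)).continuousWithinAt).mono hsub)
      (fun t ht => by
        have h1 := (hball (hB t (Ioc_subset_Icc_self ht))).2.2.2.1
        show HasDerivWithinAt γ (ℓ (γ' t) • G (γ t)) _ t
        rw [← h1]
        exact (hγd t (hsub (Ioc_subset_Icc_self ht))).mono_of_mem_nhdsWithin (hmono t ht))
      (fun t ht => (hball (hB t (Ioc_subset_Icc_self ht))).2.1)
      (fun t ht => ((hcd2 t (hsub ht) (hab t ht)).continuousWithinAt).mono hsub)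
      (fun t ht => (hcd2 t (hsub (Ioc_subset_Icc_self ht))
        (hab t (Ioc_subset_Icc_self ht))).mono_of_mem_nhdsWithin (hmono t ht))
      (fun t ht => (hball (hB t (Ioc_subset_Icc_self ht))).2.2.1)
      hstart
    exact (this ⟨le_rfl, hts⟩).symm

end Pool.Agent.H127.Tm
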